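import Mathlib

/-!
# Supersingular and almost supersingular degrees (MP_950c68_ag)
-/

set_option autoImplicit false

namespace Fermat950

/-- `d` divides some `p ^ i + 1` (the supersingular degrees of Tate, Shioda and Katsura) -/
def SSMod (p d : ℕ) : Prop := ∃ i : ℕ, d ∣ p ^ i + 1

/-- for every prime `l` dividing `d`, the prime-to-`l` part of `d` divides some `p ^ i + 1` -/
def AlmostSS (p d : ℕ) : Prop :=
  ∀ l : ℕ, l.Prime → l ∣ d → SSMod p (d / l ^ d.factorization l)

/-- `x ∈ ℤ/N` is good for the prime `p`: its order is `d` or `2d`, where `d` is almost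
supersingular, and odd in the second case -/
def Good (p : ℕ) {N : ℕ} (x : ZMod N) : Prop :=
  AlmostSS p (addOrderOf x) ∨ ∃ d : ℕ, Odd d ∧ AlmostSS p d ∧ addOrderOf x = 2 * d

end Fermat950
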