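import Mathlib
import Pool.Agent.Lib.MP_950c68_ag.F2.Defs

/-!
# Arithmetic of almost supersingular degrees
-/

set_option autoImplicit false

open Finset

namespace Fermat950

theorem SSMod.mono {p d d' : ℕ} (h : SSMod p d) (hd : d' ∣ d) : SSMod p d' := by
  obtain ⟨i, hi⟩ := h
  exact ⟨i, hd.trans hi⟩

theorem SSMod.almost {p d : ℕ} (h : SSMod p d) : AlmostSS p d := fun l _ _ =>
  h.mono (Nat.ordCompl_dvd d l)

theorem ssMod_one (p : ℕ) : SSMod p 1 := ⟨0, one_dvd _⟩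

theorem almostSS_prime_pow (p : ℕ) {l : ℕ} (hl : l.Prime) (j : ℕ) : AlmostSS p (l ^ j) := by
  intro l' hl' hd
  have h1 : l' = l := (Nat.prime_dvd_prime_iff_eq hl' hl).1 (hl'.dvd_of_dvd_pow hd)
  subst h1
  rw [hl'.factorization_pow, Finsupp.single_eq_same, Nat.div_self (pow_pos hl'.pos _)]
  exact ssMod_one p

/-- two supersingular moduli with the same odd prime factor have supersingular lcm -/
theorem SSMod.lcm_of_odd {p a b r : ℕ} (ha : SSMod p a) (hb : SSMod p b) (hr : r.Prime)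
    (hr2 : r ≠ 2) (hra : r ∣ a) (hrb : r ∣ b) : SSMod p (Nat.lcm a b) := by
  obtain ⟨i, hi⟩ := ha
  obtain ⟨j, hj⟩ := hb
  have hr3 : 3 ≤ r := by
    have := hr.two_le
    omega
  -- powers
  have hmod : ∀ (m s t : ℕ), m ∣ p ^ s + 1 → Odd t → m ∣ p ^ (s * t) + 1 := by
    intro m s t hm ht
    refine hm.trans ?_
    rw [pow_mul]
    have := Odd.nat_add_dvd_pow_add_pow (p ^ s) 1 ht
    rwa [one_pow] at this
  have hmod' : ∀ (m s t : ℕ), m ∣ p ^ s + 1 → Even t → (m : ℤ) ∣ (p : ℤ) ^ (s * t) - 1 := by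
    intro m s t hm ht
    obtain ⟨c, rfl⟩ := ht
    have h1 : (m : ℤ) ∣ (p : ℤ) ^ s + 1 := by exact_mod_cast hm
    have h2 : (p : ℤ) ^ s + 1 ∣ ((p : ℤ) ^ s) ^ (c + c) - 1 := by
      have h3 : ((p : ℤ) ^ s) ^ (c + c) - 1 = (((p : ℤ) ^ s) ^ 2) ^ c - 1 ^ c := by
        rw [one_pow, ← pow_mul ((p : ℤ) ^ s) 2 c, two_mul]
      rw [h3]
      refine Dvd.dvd.trans ⟨(p : ℤ) ^ s - 1, by ring⟩ (sub_dvd_pow_sub_pow _ 1 c)
    rw [pow_mul]
    exact h1.trans h2
  rcases Nat.eq_zero_or_pos (Nat.gcd i j) with hg | hg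
  · rw [Nat.gcd_eq_zero_iff] at hg
    rw [hg.1] at hi
    rw [hg.2] at hj
    exact ⟨0, Nat.lcm_dvd hi hj⟩
  obtain ⟨i', j', hcop, hi', hj'⟩ := Nat.exists_coprime i j
  have hkey : ∀ s t s' t' : ℕ, r ∣ p ^ s + 1 → r ∣ p ^ t + 1 → s * t' = t * s' → Odd t' →
      ¬ Even s' := by
    intro s t s' t' h1 h2 h3 h4 h5
    have e1 := hmod r s t' h1 h4
    have e2 := hmod' r t s' h2 h5
    rw [h3] at e1
    have e3 : (r : ℤ) ∣ (p : ℤ) ^ (t * s') + 1 := by exact_mod_cast e1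
    have e4 := dvd_sub e3 e2
    have e5 : ((p : ℤ) ^ (t * s') + 1) - ((p : ℤ) ^ (t * s') - 1) = 2 := by ring
    rw [e5] at e4
    have e6 : r ∣ 2 := by exact_mod_cast e4
    have := Nat.le_of_dvd two_pos e6
    omega
  have hij : i * j' = j * i' := by
    calc i * j' = i' * Nat.gcd i j * j' := by rw [← hi']
      _ = j' * Nat.gcd i j * i' := by ring
      _ = j * i' := by rw [← hj']
  have hodd : Odd i' ∧ Odd j' := by
    rcases Nat.even_or_odd i' with h1 | h1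
    · exfalso
      have h2 : Odd j' := by
        rw [← Nat.not_even_iff_odd]
        intro h3
        have h4 := Nat.dvd_gcd (even_iff_two_dvd.1 h1) (even_iff_two_dvd.1 h3)
        rw [hcop.gcd_eq_one] at h4
        omega
      exact hkey i j i' j' (hra.trans hi) (hrb.trans hj) hij h2 h1
    · refine ⟨h1, ?_⟩
      rw [← Nat.not_even_iff_odd]
      exact hkey j i j' i' (hrb.trans hj) (hra.trans hi) hij.symm h1
  refine ⟨i * j', Nat.lcm_dvd (hmod a i j' hi hodd.2) ?_⟩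
  rw [hij]
  exact hmod b j i' hj hodd.1

theorem SSMod.lcm_of_primeFactors {p a b : ℕ} (ha : SSMod p a) (hb : SSMod p b) (ha0 : a ≠ 0)
    (hb0 : b ≠ 0) (h : a.primeFactors = b.primeFactors) : SSMod p (Nat.lcm a b) := by
  by_cases hr : ∃ r : ℕ, r.Prime ∧ r ≠ 2 ∧ r ∣ a
  · obtain ⟨r, hr, hr2, hra⟩ := hr
    have h1 : r ∈ b.primeFactors := h ▸ Nat.mem_primeFactors.2 ⟨hr, hra, ha0⟩
    exact ha.lcm_of_odd hb hr hr2 hra (Nat.dvd_of_mem_primeFactors h1)
  · push Not at hr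
    have h1 : ∀ c : ℕ, c ≠ 0 → c.primeFactors = a.primeFactors → ∃ k, c = 2 ^ k := by
      intro c hc hca
      refine ⟨_, Nat.eq_prime_pow_of_unique_prime_dvd hc fun {d} hd hdc => ?_⟩
      by_contra hd2
      have h2 : d ∈ a.primeFactors := hca ▸ Nat.mem_primeFactors.2 ⟨hd, hdc, hc⟩
      exact hr d hd hd2 (Nat.dvd_of_mem_primeFactors h2)
    obtain ⟨s, hs⟩ := h1 a ha0 rfl
    obtain ⟨t, ht⟩ := h1 b hb0 h.symm
    rcases Nat.le_total s t with hst | hst
    · have h2 : Nat.lcm a b = b := by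
        rw [Nat.lcm_eq_right_iff_dvd, hs, ht]
        exact pow_dvd_pow 2 hst
      rw [h2]
      exact hb
    · have h2 : Nat.lcm a b = a := by
        rw [Nat.lcm_eq_left_iff_dvd, hs, ht]
        exact pow_dvd_pow 2 hst
      rw [h2]
      exact ha

theorem mem_primeFactors_ordCompl {d l r : ℕ} (hd : d ≠ 0) (hl : l.Prime) (hr : r.Prime) :
    r ∣ d / l ^ d.factorization l ↔ r ∣ d ∧ r ≠ l := by
  constructor
  · intro h
    refine ⟨h.trans (Nat.ordCompl_dvd d l), ?_⟩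
    rintro rfl
    exact Nat.not_dvd_ordCompl hl hd h
  · rintro ⟨h1, h2⟩
    rw [← Nat.ordProj_mul_ordCompl_eq_self d l] at h1
    rcases (hr.dvd_mul).1 h1 with h3 | h3
    · exact absurd ((Nat.prime_dvd_prime_iff_eq hr hl).1 (hr.dvd_of_dvd_pow h3)) h2
    · exact h3

theorem AlmostSS.lcm {p a b : ℕ} (ha : AlmostSS p a) (hb : AlmostSS p b) (ha0 : a ≠ 0)
    (hb0 : b ≠ 0) (h : a.primeFactors = b.primeFactors) :
    AlmostSS p (Nat.lcm a b) ∧ (Nat.lcm a b).primeFactors = a.primeFactors := by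
  have hab0 : Nat.lcm a b ≠ 0 := Nat.lcm_ne_zero ha0 hb0
  have hpf : ∀ r : ℕ, r.Prime → (r ∣ Nat.lcm a b ↔ r ∣ a) := by
    intro r hr
    constructor
    · intro h1
      rcases (hr.dvd_mul).1 (h1.trans (Nat.lcm_dvd_mul a b)) with h2 | h2
      · exact h2
      · have h3 : r ∈ a.primeFactors := h ▸ Nat.mem_primeFactors.2 ⟨hr, h2, hb0⟩
        exact Nat.dvd_of_mem_primeFactors h3
    · intro h1
      exact h1.trans (Nat.dvd_lcm_left a b)
  have hab : ∀ r : ℕ, r.Prime → (r ∣ a ↔ r ∣ b) := by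
    intro r hr
    constructor
    · intro h1
      exact Nat.dvd_of_mem_primeFactors (h ▸ Nat.mem_primeFactors.2 ⟨hr, h1, ha0⟩)
    · intro h1
      exact Nat.dvd_of_mem_primeFactors (h.symm ▸ Nat.mem_primeFactors.2 ⟨hr, h1, hb0⟩)
  refine ⟨?_, ?_⟩
  · intro l hl hlab
    have hla : l ∣ a := (hpf l hl).1 hlab
    have hlb : l ∣ b := (hab l hl).1 hla
    set a' := a / l ^ a.factorization l with ha'
    set b' := b / l ^ b.factorization l with hb'
    have ha'0 : a' ≠ 0 := (Nat.ordCompl_pos l ha0).ne'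
    have hb'0 : b' ≠ 0 := (Nat.ordCompl_pos l hb0).ne'
    have h1 : a'.primeFactors = b'.primeFactors := by
      ext r
      rw [Nat.mem_primeFactors, Nat.mem_primeFactors]
      constructor
      · rintro ⟨hr, h2, -⟩
        refine ⟨hr, ?_, hb'0⟩
        have h3 := (mem_primeFactors_ordCompl ha0 hl hr).1 h2
        exact (mem_primeFactors_ordCompl hb0 hl hr).2 ⟨(hab r hr).1 h3.1, h3.2⟩
      · rintro ⟨hr, h2, -⟩
        refine ⟨hr, ?_, ha'0⟩
        have h3 := (mem_primeFactors_ordCompl hb0 hl hr).1 h2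
        exact (mem_primeFactors_ordCompl ha0 hl hr).2 ⟨(hab r hr).2 h3.1, h3.2⟩
    have h2 := (ha l hl hla).lcm_of_primeFactors (hb l hl hlb) ha'0 hb'0 h1
    refine h2.mono ?_
    have hcop : Nat.Coprime (Nat.lcm a b / l ^ (Nat.lcm a b).factorization l)
        (l ^ (a.factorization l + b.factorization l)) :=
      ((Nat.coprime_ordCompl hl hab0).symm).pow_right _
    refine hcop.dvd_of_dvd_mul_left ?_
    refine (Nat.ordCompl_dvd _ _).trans (Nat.lcm_dvd ?_ ?_)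
    · have h3 : a = l ^ a.factorization l * a' := (Nat.ordProj_mul_ordCompl_eq_self a l).symm
      nth_rewrite 1 [h3]
      exact Nat.mul_dvd_mul (pow_dvd_pow l (Nat.le_add_right _ _)) (Nat.dvd_lcm_left a' b')
    · have h3 : b = l ^ b.factorization l * b' := (Nat.ordProj_mul_ordCompl_eq_self b l).symm
      nth_rewrite 1 [h3]
      exact Nat.mul_dvd_mul (pow_dvd_pow l (Nat.le_add_left _ _)) (Nat.dvd_lcm_right a' b')
  · ext r
    rw [Nat.mem_primeFactors, Nat.mem_primeFactors]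
    constructor
    · rintro ⟨hr, h2, -⟩
      exact ⟨hr, (hpf r hr).1 h2, ha0⟩
    · rintro ⟨hr, h2, -⟩
      exact ⟨hr, (hpf r hr).2 h2, hab0⟩

/-- two almost supersingular moduli with different sets of prime factors have supersingular gcd -/
theorem AlmostSS.gcd {p a b : ℕ} (ha : AlmostSS p a) (hb : AlmostSS p b) (ha0 : a ≠ 0)
    (hb0 : b ≠ 0) (h : a.primeFactors ≠ b.primeFactors) : SSMod p (Nat.gcd a b) := by
  have key : ∀ c d : ℕ, AlmostSS p c → c ≠ 0 → (∃ l : ℕ, l.Prime ∧ l ∣ c ∧ ¬ l ∣ d) →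
      SSMod p (Nat.gcd c d) := by
    rintro c d hc hc0 ⟨l, hl, hlc, hld⟩
    refine (hc l hl hlc).mono ?_
    have h1 : Nat.Coprime (Nat.gcd c d) (l ^ c.factorization l) := by
      refine Nat.Coprime.pow_right _ ?_
      rw [Nat.coprime_comm, hl.coprime_iff_not_dvd]
      exact fun h2 => hld (h2.trans (Nat.gcd_dvd_right c d))
    refine h1.dvd_of_dvd_mul_left ?_
    rw [Nat.ordProj_mul_ordCompl_eq_self]
    exact Nat.gcd_dvd_left c d
  by_cases h1 : ∃ l : ℕ, l.Prime ∧ l ∣ a ∧ ¬ l ∣ b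
  · exact key a b ha ha0 h1
  · rw [Nat.gcd_comm]
    refine key b a hb hb0 ?_
    by_contra h2
    push Not at h1 h2
    apply h
    ext r
    rw [Nat.mem_primeFactors, Nat.mem_primeFactors]
    constructor
    · rintro ⟨hr, h3, -⟩
      exact ⟨hr, h1 r hr h3, hb0⟩
    · rintro ⟨hr, h3, -⟩
      exact ⟨hr, h2 r hr h3, ha0⟩

end Fermat950
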