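import Mathlib
import Pool.Agent.Lib.MP_950c68_ag.F.Glue
import Pool.Agent.Lib.MP_950c68_ag.F2.AS

/-!
# Nonvanishing of the first Bernoulli sum for characters whose conductor has all the primes
-/

set_option autoImplicit false

open Finset

namespace Fermat950

theorem sum_val_ne_zero_full {N : ℕ} [NeZero N] (χ : DirichletCharacter ℂ N) (hodd : χ.Odd)
    (hfull : ∀ l : ℕ, l.Prime → l ∣ N → l ∣ χ.conductor) :
    ∑ j : ZMod N, χ j * (j.val : ℂ) ≠ 0 := by
  set f := χ.conductor with hf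
  have hfd : f ∣ N := χ.conductor_dvd_level
  have hf0 : f ≠ 0 := χ.conductor_ne_zero
  have : NeZero f := ⟨hf0⟩
  set χ₀ := χ.primitiveCharacter with hχ₀
  have hcop : ∀ i : ℕ, Nat.Coprime i N ↔ Nat.Coprime i f := by
    intro i
    constructor
    · exact fun h => h.coprime_dvd_right hfd
    · intro h
      refine Nat.coprime_of_dvd fun l hl hli hlN => ?_
      have h1 := Nat.dvd_gcd hli (hfull l hl hlN)
      rw [h.gcd_eq_one] at h1
      exact hl.one_lt.ne' (Nat.dvd_one.1 h1)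
  have hval : ∀ i : ℕ, χ (i : ZMod N) = χ₀ (i : ZMod f) := by
    intro i
    by_cases hi : Nat.Coprime i N
    · have hc : IsCoprime (i : ℤ) (N : ℤ) := by
        rw [Nat.isCoprime_iff_coprime]
        exact hi
      have h1 := χ.primitiveCharacter_apply_of_isCoprime hc
      push_cast at h1
      exact h1.symm
    · have h1 : ¬ IsUnit ((i : ℕ) : ZMod N) := by
        rw [ZMod.isUnit_iff_coprime]
        exact hi
      have h2 : ¬ IsUnit ((i : ℕ) : ZMod f) := by
        rw [ZMod.isUnit_iff_coprime]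
        exact fun h => hi ((hcop i).2 h)
      rw [MulChar.map_nonunit _ h1, MulChar.map_nonunit _ h2]
  have hodd₀ : χ₀.Odd := by
    have h1 : IsCoprime (-1 : ℤ) (N : ℤ) := (isCoprime_one_left).neg_left
    have h2 := χ.primitiveCharacter_apply_of_isCoprime h1
    push_cast at h2
    show χ₀ (-1) = -1
    rw [hχ₀, h2]
    exact hodd
  have hχ₀1 : χ₀ ≠ 1 := by
    intro h
    have h1 : χ₀ (-1) = -1 := hodd₀
    rw [h, MulChar.one_apply isUnit_one.neg] at h1
    norm_num at h1
  have hne := sum_val_ne_zero χ₀ hodd₀ χ.primitiveCharacter_isPrimitive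
  obtain ⟨T, hT⟩ := hfd
  have hT0 : T ≠ 0 := by
    rintro rfl
    rw [mul_zero] at hT
    exact NeZero.ne N hT
  set g : ℕ → ℂ := fun i => χ₀ (i : ZMod f) with hg
  have e1 : ∑ j : ZMod N, χ j * (j.val : ℂ) = ∑ i ∈ range N, g i * (i : ℂ) := by
    rw [← bernpp_sum_val N (fun i => g i * (i : ℂ))]
    refine Finset.sum_congr rfl fun x _ => ?_
    rw [hg]
    simp only
    rw [← hval x.val, ZMod.natCast_zmod_val]
  have e2 : ∑ j : ZMod f, χ₀ j * (j.val : ℂ) = ∑ i ∈ range f, g i * (i : ℂ) := by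
    rw [← bernpp_sum_val f (fun i => g i * (i : ℂ))]
    refine Finset.sum_congr rfl fun x _ => ?_
    rw [hg]
    simp only
    rw [ZMod.natCast_zmod_val]
  have e3 : ∑ i ∈ range f, g i = 0 := by
    rw [← MulChar.sum_eq_zero_of_ne_one hχ₀1, ← bernpp_sum_val f (fun i => g i)]
    refine Finset.sum_congr rfl fun x _ => ?_
    rw [hg]
    simp only
    rw [ZMod.natCast_zmod_val]
  have e4 : ∑ i ∈ range N, g i * (i : ℂ) = ∑ i ∈ range (f * T), g i * (i : ℂ) := by rw [← hT]
  rw [e1, e4, bernpp_range g f ?_ e3 T, ← e2]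
  · exact mul_ne_zero (Nat.cast_ne_zero.2 hT0) hne
  · intro b t
    rw [hg]
    simp

theorem full_of_almost {N : ℕ} [NeZero N] (p : ℕ) (hp : Nat.Coprime p N) (hAS : AlmostSS p N)
    (χ : DirichletCharacter ℂ N) (hodd : χ.Odd) (hχ : χ (p : ZMod N) = 1) (l : ℕ)
    (hl : l.Prime) (hlN : l ∣ N) : l ∣ χ.conductor := by
  by_contra hlf
  obtain ⟨i, hi⟩ := hAS l hl hlN
  have hf : χ.conductor ∣ p ^ i + 1 := by
    refine Nat.dvd_trans ?_ hi
    have h1 : Nat.Coprime χ.conductor (l ^ N.factorization l) := by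
      refine Nat.Coprime.pow_right _ ?_
      rw [Nat.coprime_comm, hl.coprime_iff_not_dvd]
      exact hlf
    refine h1.dvd_of_dvd_mul_left ?_
    rw [Nat.ordProj_mul_ordCompl_eq_self]
    exact χ.conductor_dvd_level
  have hc : IsCoprime (-(p : ℤ) ^ i) (N : ℤ) := by
    have h1 : IsCoprime ((p : ℤ)) (N : ℤ) := by
      rw [Nat.isCoprime_iff_coprime]
      exact hp
    exact (h1.pow_left).neg_left
  have h1 := χ.primitiveCharacter_apply_of_isCoprime hc
  have h2 : ((-(p : ℤ) ^ i : ℤ) : ZMod χ.conductor) = 1 := by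
    have h3 : ((p ^ i + 1 : ℕ) : ZMod χ.conductor) = 0 := (ZMod.natCast_eq_zero_iff _ _).2 hf
    push_cast at h3 ⊢
    rw [neg_eq_iff_add_eq_zero]
    exact h3
  rw [h2, map_one] at h1
  push_cast at h1
  have h4 : (-(p : ZMod N) ^ i) = (-1) * (p : ZMod N) ^ i := by ring
  rw [h4, map_mul, map_pow, hχ, one_pow, mul_one] at h1
  have h5 : χ (-1) = -1 := hodd
  rw [h5] at h1
  norm_num at h1

end Fermat950
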