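import Mathlib
import Pool.Agent.Lib.MP_950c68_ag.F.Close
import Pool.Agent.Lib.MP_950c68_ag.F.Comb
import Pool.Agent.Lib.MP_950c68_ag.F.Lift2
import Pool.Agent.Lib.MP_950c68_ag.F.StickSum
import Pool.Agent.Lib.MP_950c68_ag.F.Fourier

/-!
# Mixed degrees: pure Gauss sums, and the abstract theorem at prime power level
-/

set_option autoImplicit false

open Finset

namespace Fermat950

/-- a supersingular character has a pure Gauss sum -/
theorem pure_single' {k : Type} [Field k] [Fintype k] {m : ℕ} {χ : MulChar k ℂ}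
    {ψ : AddChar k ℂ} (hχ : orderOf χ = m) (hψ : ψ ≠ 1) [NeZero m] (p : ℕ) [Fact p.Prime]
    [CharP k p] (i : ℕ) {x : ZMod m} (hi : (p : ZMod m) ^ i * x = -x) (hx : x ≠ 0) :
    Pure χ ψ {x} := by
  refine ⟨2 * m, by have := NeZero.pos m; omega, ?_⟩
  have h1 := gauss_frob_pow hχ hψ p i x
  rw [hi] at h1
  have h2 := gauss_mul_neg hχ hψ hx
  have h3 : (gaussSum (χ ^ x.val) ψ * gaussSum (χ ^ (-x).val) ψ) ^ m
      = gaussSum (χ ^ x.val) ψ ^ (2 * m) := by
    rw [mul_pow, h1]; ring
  rw [gaussProd_singleton, Multiset.card_singleton, mul_one]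
  calc gaussSum (χ ^ x.val) ψ ^ (2 * (2 * m)) = (gaussSum (χ ^ x.val) ψ ^ (2 * m)) ^ 2 := by
        rw [← pow_mul]; congr 1; ring
    _ = ((gaussSum (χ ^ x.val) ψ * gaussSum (χ ^ (-x).val) ψ) ^ 2) ^ m := by
        rw [← h3]; ring
    _ = _ := by rw [h2]; ring

theorem pure_triple {k : Type} [Field k] [Fintype k] {m : ℕ} {χ : MulChar k ℂ}
    {ψ : AddChar k ℂ} {x y z : ZMod m} (hx : Pure χ ψ {x}) (hy : Pure χ ψ {y})
    (hz : Pure χ ψ {z}) : Pure χ ψ {x, y, z} := by
  have h := (hx.add hy).add hz
  convert h using 1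
  simp only [Multiset.insert_eq_cons, ← Multiset.singleton_add, add_assoc]

section
variable {m : ℕ} {W : Type} [AddCommGroup W] (f : ZMod m → W)

/-- generation, supersingular case, all multisets of sum zero -/
theorem comb_ss (τ : W) (hτ : τ + τ = 0) (hneg : ∀ x, f (-x) = - f x)
    (htri : ∀ x y z : ZMod m, x ≠ 0 → y ≠ 0 → z ≠ 0 → x + y + z = 0 → f x + f y + f z = τ)
    (a : Multiset (ZMod m)) (h0 : 0 ∉ a) (hs : a.sum = 0) :
    (a.map f).sum = Multiset.card a • τ := by
  classical
  let g : ZMod m → W := fun x => if x = 0 then 0 else f x + τ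
  have hg0 : g 0 = 0 := by simp [g]
  have hg : ∀ x, x ≠ 0 → g x = f x + τ := fun x hx => by simp [g, hx]
  have hadd : ∀ x y, g (x + y) = g x + g y := by
    intro x y
    rcases eq_or_ne x 0 with rfl | hx
    · simp [hg0]
    rcases eq_or_ne y 0 with rfl | hy
    · simp [hg0]
    rcases eq_or_ne (x + y) 0 with hxy | hxy
    · have hy' : y = -x := by rw [eq_neg_iff_add_eq_zero, add_comm]; exact hxy
      rw [hxy, hg0, hg x hx, hg y hy, hy', hneg]
      calc (0 : W) = τ + τ := hτ.symm
        _ = _ := by abel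
    · rw [hg _ hxy, hg x hx, hg y hy]
      have h3 := htri x y (-(x + y)) hx hy (neg_ne_zero.2 hxy) (by ring)
      rw [hneg] at h3
      calc f (x + y) + τ = f (x + y) + (f x + f y + -f (x + y)) := by rw [h3]
        _ = f x + f y + 0 := by abel
        _ = f x + f y + (τ + τ) := by rw [hτ]
        _ = _ := by abel
  have hsum : ∀ b : Multiset (ZMod m), (b.map g).sum = g b.sum := by
    intro b
    induction b using Multiset.induction_on with
    | empty => simp [hg0]
    | cons x b ih => simp [ih, hadd]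
  have h4 : ∀ b : Multiset (ZMod m), 0 ∉ b →
      (b.map f).sum + (Multiset.card b) • τ = (b.map g).sum := by
    intro b
    induction b using Multiset.induction_on with
    | empty => intro _; simp
    | cons x b ih =>
      intro hb
      have hx : x ≠ 0 := fun h => hb (by simp [h])
      have hb' : 0 ∉ b := fun h => hb (by simp [h])
      rw [Multiset.map_cons, Multiset.sum_cons, Multiset.map_cons, Multiset.sum_cons,
        Multiset.card_cons, ← ih hb', hg x hx, add_smul, one_smul]
      abel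
  have h5 := h4 a h0
  rw [hsum, hs, hg0] at h5
  have h6 : Multiset.card a • τ + Multiset.card a • τ = 0 := by
    rw [← smul_add, hτ, smul_zero]
  calc (a.map f).sum = (a.map f).sum + (Multiset.card a • τ + Multiset.card a • τ) := by
        rw [h6, add_zero]
    _ = ((a.map f).sum + Multiset.card a • τ) + Multiset.card a • τ := by abel
    _ = _ := by rw [h5, zero_add]

end

/-- The abstract theorem at level `l ^ e`: if the Stickelberger sums of `a` vanish and `a` has sum
zero, then the class of `a` is `|a| τ`, `τ` the class of the pure triples. -/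
theorem level_class (l e : ℕ) [Fact l.Prime] (he : 0 < e) {W : Type} [AddCommGroup W]
    (f : ZMod (l ^ e) → W) (P : (ZMod (l ^ e))ˣ) (n : ℕ) (hn : 0 < n) (hPn : P ^ n = 1)
    (τ : W) (hτ : τ + τ = 0) (f0 : f 0 = 0) (hneg : ∀ x, f (-x) = - f x)
    (hdist : ∀ c : ZMod (l ^ e), (l : ZMod (l ^ e)) * c ≠ 0 →
      f ((l : ZMod (l ^ e)) * c) =
        (((Multiset.range l).map
          (fun i : ℕ => c + (i : ZMod (l ^ e)) * ((l ^ e / l : ℕ) : ZMod (l ^ e)))).map f).sum +
          (if l = 2 then f ((l ^ e / 2 : ℕ) : ZMod (l ^ e)) else 0))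
    (hfrob : ∀ x y z : ZMod (l ^ e), x ≠ 0 → y ≠ 0 → z ≠ 0 → x + y + z = 0 →
      (f x + f y + f z) + (f (-(P * x)) + f (-(P * y)) + f (-(P * z))) = 0)
    (htriS : (∃ i : ℕ, P ^ i = -1) → ∀ x y z : ZMod (l ^ e), x ≠ 0 → y ≠ 0 → z ≠ 0 →
      x + y + z = 0 → f x + f y + f z = τ)
    (htri2 : l = 2 → ∀ z : ZMod (l ^ e), z ≠ 0 →
      (1 - (P : ZMod (l ^ e))) * z = ((l ^ e / 2 : ℕ) : ZMod (l ^ e)) →
      f z + f (-(P * z)) + f ((l ^ e / 2 : ℕ) : ZMod (l ^ e)) = τ)
    (a : Multiset (ZMod (l ^ e))) (h0 : 0 ∉ a) (hs : a.sum = 0)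
    (hst : ∀ t : (ZMod (l ^ e))ˣ,
      2 * ∑ i ∈ range n,
        (a.map fun x => (((t * P ^ i : (ZMod (l ^ e))ˣ) : ZMod (l ^ e)) * x).val).sum =
        l ^ e * n * Multiset.card a) :
    (a.map f).sum = Multiset.card a • τ := by
  classical
  have hl : l.Prime := Fact.out
  have hne : NeZero (l ^ e) := ⟨(pow_pos hl.pos e).ne'⟩
  have hsm : ∀ j : ℕ, Even j → j • τ = 0 := by
    rintro j ⟨r, rfl⟩
    rw [← two_mul, mul_comm, mul_smul, two_smul, hτ, smul_zero]
  by_cases hcase : ∃ i : ℕ, P ^ i = -1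
  · exact comb_ss f τ hτ hneg (htriS hcase) a h0 hs
  · push Not at hcase
    set h : ZMod (l ^ e) := ((l ^ e / 2 : ℕ) : ZMod (l ^ e)) with hh
    obtain ⟨ν, ε, h1, h2, h3, h4, h5⟩ := exists_lift_multiset he f h (fun _ => hh) hdist a h0
    have hst' : ∀ t : (ZMod (l ^ e))ˣ,
        2 * ∑ i ∈ range n,
          (ν.map fun u => ((t * P ^ i * u : (ZMod (l ^ e))ˣ) : ZMod (l ^ e)).val).sum =
          l ^ e * n * Multiset.card ν := by
      intro t
      have h6 := hst t
      have h7 : ∀ i, 2 * (ν.map fun u => ((t * P ^ i * u : (ZMod (l ^ e))ˣ) :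
            ZMod (l ^ e)).val).sum + l ^ e * Multiset.card a =
          2 * (a.map fun x : ZMod (l ^ e) =>
            (((t * P ^ i : (ZMod (l ^ e))ˣ) : ZMod (l ^ e)) * x).val).sum +
          l ^ e * Multiset.card ν := by
        intro i
        have h5i := h5 (t * P ^ i)
        have g1 : (ν.map fun u => ((t * P ^ i * u : (ZMod (l ^ e))ˣ) : ZMod (l ^ e)).val) =
            ν.map (fun u : (ZMod (l ^ e))ˣ =>
              (((t * P ^ i : (ZMod (l ^ e))ˣ) : ZMod (l ^ e)) * u).val) :=
          Multiset.map_congr rfl fun u _ => by rw [Units.val_mul (t * P ^ i) u]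
        rw [g1]
        exact h5i
      have h8 : ∑ i ∈ range n, (2 * (ν.map fun u =>
          ((t * P ^ i * u : (ZMod (l ^ e))ˣ) : ZMod (l ^ e)).val).sum + l ^ e * Multiset.card a) =
          ∑ i ∈ range n, (2 * (a.map fun x : ZMod (l ^ e) =>
            (((t * P ^ i : (ZMod (l ^ e))ˣ) : ZMod (l ^ e)) * x).val).sum +
          l ^ e * Multiset.card ν) := Finset.sum_congr rfl fun i _ => h7 i
      rw [Finset.sum_add_distrib, Finset.sum_add_distrib, Finset.sum_const, Finset.sum_const,
        card_range, smul_eq_mul, smul_eq_mul, ← Finset.mul_sum, ← Finset.mul_sum, h6] at h8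
      have h9 : n * (l ^ e * Multiset.card a) = l ^ e * n * Multiset.card a := by ring
      have h10 : n * (l ^ e * Multiset.card ν) = l ^ e * n * Multiset.card ν := by ring
      rw [h9, h10] at h8
      omega
    have hb := balanced_of_stick l e he P n hn hPn ν hst'
    have hbal : ∀ u, bal P n ν u = 0 := by
      intro u
      unfold bal
      rw [Finset.sum_sub_distrib, sub_eq_zero]
      exact_mod_cast hb u
    obtain ⟨hνev, z, hz1, hz2⟩ := comb_ordinary f P n hn hPn hcase f0 hneg hfrob ν hbal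
    rcases Nat.even_or_odd ε with hε | hε
    · -- even case
      have haev : Even (Multiset.card a) := by
        obtain ⟨r1, hr1⟩ := h4
        obtain ⟨r2, hr2⟩ := hνev
        obtain ⟨r3, hr3⟩ := hε
        exact ⟨r1 - r2 - r3, by omega⟩
      rw [hsm _ haev]
      have hε' : ε • h = 0 ∧ ε • f h = 0 := by
        by_cases hl2 : l = 2
        · have h2m : 2 ∣ l ^ e := hl2 ▸ dvd_pow_self l he.ne'
          have hneg' : -h = h := half_neg h2m
          have e1 : h + h = 0 := by
            nth_rewrite 1 [← hneg']; simp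
          have e2 : f h + f h = 0 := by
            nth_rewrite 1 [← hneg']; rw [hneg]; simp
          obtain ⟨r, hr⟩ := hε
          rw [hr, ← two_mul, mul_comm]
          rw [mul_smul, mul_smul, two_smul, two_smul, e1, e2]
          simp
        · rw [h1 hl2]; simp
      rw [h2, hε'.2, add_zero, hz1]
      rw [hs, hε'.1, add_zero] at h3
      rw [← h3] at hz2
      have hz3 : (P : ZMod (l ^ e)) * z = z := by
        have : z - P * z = 0 := by rw [← hz2]; ring
        exact (sub_eq_zero.1 this).symm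
      rw [hz3, sub_self]
    · -- odd case
      have hl2 : l = 2 := by
        by_contra hl2
        rw [h1 hl2] at hε
        exact absurd hε (by decide)
      have h2m : 2 ∣ l ^ e := hl2 ▸ dvd_pow_self l he.ne'
      have hneg' : -h = h := half_neg h2m
      have e1 : h + h = 0 := by
        nth_rewrite 1 [← hneg']; simp
      have e2 : f h + f h = 0 := by
        nth_rewrite 1 [← hneg']; rw [hneg]; simp
      have haodd : Odd (Multiset.card a) := by
        obtain ⟨r1, hr1⟩ := h4
        obtain ⟨r2, hr2⟩ := hνev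
        obtain ⟨r3, hr3⟩ := hε
        exact ⟨r1 - r2 - r3 - 1, by omega⟩
      have hh0 : h ≠ 0 := by
        intro hc
        rw [hh] at hc
        rw [ZMod.natCast_eq_zero_iff] at hc
        obtain ⟨c, hc'⟩ := h2m
        have hpos := NeZero.pos (l ^ e)
        rw [hc'] at hc hpos
        rw [Nat.mul_div_cancel_left c two_pos] at hc
        have := Nat.le_of_dvd (by omega) hc
        omega
      have hεsm : ε • h = h ∧ ε • f h = f h := by
        obtain ⟨r, hr⟩ := hε
        rw [hr, add_smul, add_smul, one_smul, one_smul, mul_comm, mul_smul, mul_smul, two_smul,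
          two_smul, e1, e2]
        simp
      rw [hs, hεsm.1] at h3
      have h6 : (1 - (P : ZMod (l ^ e))) * z = h := by
        rw [hz2]
        have : (ν.map fun u : (ZMod (l ^ e))ˣ => (u : ZMod (l ^ e))).sum = -h :=
          eq_neg_of_add_eq_zero_left h3.symm
        rw [this, hneg']
      have hz0 : z ≠ 0 := by
        rintro rfl
        rw [mul_zero] at h6
        exact hh0 h6.symm
      have h7 := htri2 hl2 z hz0 h6
      rw [h2, hεsm.2, hz1]
      obtain ⟨r, hr⟩ := haodd
      rw [hr, add_smul, one_smul, hsm _ ⟨r, by ring⟩, zero_add, ← h7, hneg]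
      abel

end Fermat950
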