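import Mathlib

/-!
# The inclusion of `ℤ/M` into `ℤ/N`, `M ∣ N`, and the Stickelberger sums
-/

set_option autoImplicit false
set_option linter.unusedSectionVars false

open Finset

namespace Fermat950

/-- the inclusion of `ℤ/M` into `ℤ/N`, multiplication by `N / M` -/
def incl (M N : ℕ) (x : ZMod M) : ZMod N := ((N / M * x.val : ℕ) : ZMod N)

section
variable {M N : ℕ} [NeZero M] [NeZero N] (hMN : M ∣ N)
include hMN

theorem incl_val (x : ZMod M) : (incl M N x).val = N / M * x.val := by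
  unfold incl
  rw [ZMod.val_natCast, Nat.mod_eq_of_lt]
  obtain ⟨c, rfl⟩ := hMN
  have hM : 0 < M := NeZero.pos M
  have hc : 0 < c := by
    rcases Nat.eq_zero_or_pos c with h | h
    · exact absurd (by rw [h, mul_zero]) (NeZero.ne (M * c))
    · exact h
  rw [Nat.mul_div_cancel_left c hM, mul_comm M c]
  exact Nat.mul_lt_mul_of_pos_left (ZMod.val_lt x) hc

theorem incl_natCast (j : ℕ) : incl M N (j : ZMod M) = ((N / M * j : ℕ) : ZMod N) := by
  unfold incl
  rw [ZMod.val_natCast, ZMod.natCast_eq_natCast_iff]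
  have h := (Nat.mod_modEq j M).mul_left' (N / M)
  rwa [Nat.div_mul_cancel hMN] at h

theorem incl_add (x y : ZMod M) : incl M N (x + y) = incl M N x + incl M N y := by
  have hx := ZMod.natCast_zmod_val x
  have hy := ZMod.natCast_zmod_val y
  rw [← hx, ← hy, ← Nat.cast_add, incl_natCast hMN, incl_natCast hMN, incl_natCast hMN, mul_add,
    Nat.cast_add]

theorem incl_zero : incl M N 0 = 0 := by
  have := incl_natCast (M := M) (N := N) hMN 0
  simpa using this

theorem incl_neg (x : ZMod M) : incl M N (-x) = -incl M N x := by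
  rw [eq_neg_iff_add_eq_zero, ← incl_add hMN, neg_add_cancel, incl_zero hMN]

theorem incl_inj {x y : ZMod M} (h : incl M N x = incl M N y) : x = y := by
  have h1 := congrArg ZMod.val h
  rw [incl_val hMN, incl_val hMN] at h1
  obtain ⟨c, rfl⟩ := hMN
  have hM : 0 < M := NeZero.pos M
  have hc : 0 < c := by
    rcases Nat.eq_zero_or_pos c with h | h
    · exact absurd (by rw [h, mul_zero]) (NeZero.ne (M * c))
    · exact h
  rw [Nat.mul_div_cancel_left c hM] at h1
  exact ZMod.val_injective M (Nat.eq_of_mul_eq_mul_left hc h1)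

theorem incl_ne_zero {x : ZMod M} (h : x ≠ 0) : incl M N x ≠ 0 := fun h0 =>
  h (incl_inj hMN (by rw [h0, incl_zero hMN]))

theorem incl_mul (j : ℕ) (x : ZMod M) :
    incl M N ((j : ZMod M) * x) = (j : ZMod N) * incl M N x := by
  have hx := ZMod.natCast_zmod_val x
  rw [← hx, ← Nat.cast_mul, incl_natCast hMN, incl_natCast hMN]
  push_cast
  ring

theorem incl_multiset_sum (b : Multiset (ZMod M)) :
    (b.map (incl M N)).sum = incl M N b.sum := by
  induction b using Multiset.induction_on with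
  | empty => simp [incl_zero hMN]
  | cons x b ih => rw [Multiset.map_cons, Multiset.sum_cons, Multiset.sum_cons, ih, incl_add hMN]

theorem incl_surj {y : ZMod N} (h : (M : ZMod N) * y = 0) : ∃ x : ZMod M, incl M N x = y := by
  have hy := ZMod.natCast_zmod_val y
  rw [← hy, ← Nat.cast_mul, ZMod.natCast_eq_zero_iff] at h
  obtain ⟨c, hc⟩ := hMN
  have hM : 0 < M := NeZero.pos M
  have h2 : c ∣ y.val := by
    exact (Nat.mul_dvd_mul_iff_left hM).1 ((dvd_of_eq hc.symm).trans h)
  obtain ⟨r, hr⟩ := h2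
  refine ⟨(r : ZMod M), ?_⟩
  rw [incl_natCast ⟨c, hc⟩]
  have h3 : N / M = c := by rw [hc, Nat.mul_div_cancel_left c hM]
  rw [h3, ← hr, hy]

end

/-- the Stickelberger sum -/
def stk (N p n t : ℕ) (x : ZMod N) : ℤ :=
  2 * ∑ i ∈ range n, ((((p ^ i * t : ℕ) : ZMod N) * x).val : ℤ) - N * n

theorem stk_congr {N p n t t' : ℕ} (h : (t : ZMod N) = (t' : ZMod N)) (x : ZMod N) :
    stk N p n t x = stk N p n t' x := by
  unfold stk
  simp only [Nat.cast_mul, h]

theorem stk_incl {M N : ℕ} [NeZero M] [NeZero N] (hMN : M ∣ N) (p n t : ℕ) (x : ZMod M) :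
    stk N p n t (incl M N x) = (N / M : ℕ) * stk M p n t x := by
  unfold stk
  have h1 : ∀ i, ((((p ^ i * t : ℕ) : ZMod N) * incl M N x).val : ℤ) =
      (N / M : ℕ) * ((((p ^ i * t : ℕ) : ZMod M) * x).val : ℤ) := by
    intro i
    rw [← incl_mul hMN, incl_val hMN]
    push_cast
    ring
  simp only [h1]
  rw [← Finset.mul_sum]
  obtain ⟨c, rfl⟩ := hMN
  rw [Nat.mul_div_cancel_left c (NeZero.pos M)]
  push_cast
  ring

theorem stk_neg {M : ℕ} [NeZero M] {p n t t' : ℕ} (hp : Nat.Coprime p M) (ht : Nat.Coprime t M)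
    (h : (t' : ZMod M) = -(t : ZMod M)) {x : ZMod M} (hx : x ≠ 0) :
    stk M p n t' x = -stk M p n t x := by
  unfold stk
  have h1 : ∀ i, ((((p ^ i * t' : ℕ) : ZMod M) * x).val : ℤ) =
      M - ((((p ^ i * t : ℕ) : ZMod M) * x).val : ℤ) := by
    intro i
    have h2 : ((p ^ i * t' : ℕ) : ZMod M) * x = -(((p ^ i * t : ℕ) : ZMod M) * x) := by
      rw [Nat.cast_mul, h]
      push_cast
      ring
    have h3 : ((p ^ i * t : ℕ) : ZMod M) * x ≠ 0 := by
      intro h0
      apply hx
      have hu : IsUnit ((p ^ i * t : ℕ) : ZMod M) := by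
        rw [ZMod.isUnit_iff_coprime]
        exact (Nat.Coprime.pow_left i hp).mul_left ht
      exact (hu.mul_right_eq_zero).1 h0
    have : NeZero (((p ^ i * t : ℕ) : ZMod M) * x) := ⟨h3⟩
    rw [h2, ZMod.val_neg_of_ne_zero, Nat.cast_sub (ZMod.val_lt _).le]
  simp only [h1]
  rw [Finset.sum_sub_distrib, Finset.sum_const, card_range, nsmul_eq_mul]
  ring

end Fermat950
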