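import Mathlib
import Pool.Agent.Lib.MP_950c68_ag.F2.Incl

/-!
# Splitting a multiset of elements of prime power order
-/

set_option autoImplicit false
set_option linter.unusedSectionVars false

open Finset

namespace Fermat950

/-- the prime power part of the level -/
abbrev lev (N l : ℕ) : ℕ := l ^ N.factorization l

theorem lev_dvd (N l : ℕ) : lev N l ∣ N := Nat.ordProj_dvd N l

theorem lev_coprime {N l : ℕ} (hN : N ≠ 0) (hl : l.Prime) : Nat.Coprime (lev N l) (N / lev N l) :=
  (Nat.coprime_ordCompl hl hN).pow_left _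

theorem lev_dvd_div {N l l' : ℕ} (_hN : N ≠ 0) (hl : l.Prime) (hl' : l'.Prime) (h : l' ≠ l) :
    lev N l' ∣ N / lev N l := by
  have h1 : Nat.Coprime (lev N l') (lev N l) :=
    Nat.Coprime.pow _ _ ((Nat.coprime_primes hl' hl).2 h)
  have h2 : lev N l' ∣ lev N l * (N / lev N l) := by
    rw [Nat.mul_div_cancel' (lev_dvd N l)]
    exact lev_dvd N l'
  exact h1.dvd_of_dvd_mul_left h2

theorem lev_pos_exp {N l : ℕ} (hN : N ≠ 0) (hl : l.Prime) (hlN : l ∣ N) :
    0 < N.factorization l := hl.factorization_pos_of_dvd hN hlN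

/-- Chinese remainder theorem -/
theorem crt_exists {N l : ℕ} (hN : N ≠ 0) (hl : l.Prime) (t : ℕ) (ht : Nat.Coprime t (lev N l)) :
    ∃ s : ℕ, Nat.Coprime s N ∧ (s : ZMod (lev N l)) = t ∧
      ∀ l', l'.Prime → l' ≠ l → (s : ZMod (lev N l')) = 1 := by
  obtain ⟨s, hs1, hs2⟩ := Nat.chineseRemainder (lev_coprime hN hl) t 1
  refine ⟨s, ?_, (ZMod.natCast_eq_natCast_iff _ _ _).2 hs1, fun l' hl' hne => ?_⟩
  · have h1 : Nat.Coprime s (lev N l) := by
      unfold Nat.Coprime at ht ⊢
      rw [hs1.gcd_eq, ht]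
    have h2 : Nat.Coprime s (N / lev N l) := by
      unfold Nat.Coprime
      rw [hs2.gcd_eq, Nat.gcd_one_left]
    have h3 := h1.mul_right h2
    rwa [Nat.mul_div_cancel' (lev_dvd N l)] at h3
  · have h1 := hs2.of_dvd (lev_dvd_div hN hl hl' hne)
    have h2 := (ZMod.natCast_eq_natCast_iff _ _ _).2 h1
    simpa using h2

/-- splitting by the primes -/
theorem exists_split {N : ℕ} [NeZero N] (a : Multiset (ZMod N)) (h0 : 0 ∉ a)
    (hpp : ∀ x ∈ a, IsPrimePow (addOrderOf x)) :
    ∃ b : (l : ℕ) → Multiset (ZMod (lev N l)),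
      a = ∑ l ∈ N.primeFactors, (b l).map (incl (lev N l) N) ∧ ∀ l, 0 ∉ b l := by
  classical
  have hN : N ≠ 0 := NeZero.ne N
  induction a using Multiset.induction_on with
  | empty => exact ⟨fun _ => 0, by simp, fun l => by simp⟩
  | cons x a ih =>
    have hx : x ≠ 0 := fun h => h0 (by simp [h])
    obtain ⟨b, hb1, hb2⟩ := ih (fun h => h0 (by simp [h])) fun y hy =>
      hpp y (Multiset.mem_cons_of_mem hy)
    obtain ⟨l₀, j, hl₀, hj, hlj⟩ := hpp x (Multiset.mem_cons_self x a)
    have hl₀' : l₀.Prime := Nat.prime_iff.2 hl₀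
    have hordN : addOrderOf x ∣ N := by
      have := addOrderOf_dvd_card (x := x)
      rwa [ZMod.card] at this
    have hlN : l₀ ∣ N := (dvd_pow_self l₀ hj.ne').trans (hlj ▸ hordN)
    have hmem : l₀ ∈ N.primeFactors := Nat.mem_primeFactors.2 ⟨hl₀', hlN, hN⟩
    have hord : addOrderOf x ∣ lev N l₀ := by
      rw [← hlj]
      exact pow_dvd_pow l₀ ((hl₀'.pow_dvd_iff_le_factorization hN).1 (hlj ▸ hordN))
    have hne : NeZero (lev N l₀) := ⟨pow_ne_zero _ hl₀'.ne_zero⟩
    obtain ⟨y, hy⟩ := incl_surj (lev_dvd N l₀) (y := x) (by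
      rw [← nsmul_eq_mul]
      exact addOrderOf_dvd_iff_nsmul_eq_zero.1 hord)
    have hy0 : y ≠ 0 := by
      rintro rfl
      rw [incl_zero (lev_dvd N l₀)] at hy
      exact hx hy.symm
    refine ⟨Function.update b l₀ (y ::ₘ b l₀), ?_, ?_⟩
    · rw [← Finset.add_sum_erase _ _ hmem, Function.update_self, Multiset.map_cons, hy]
      have h1 : ∑ l ∈ N.primeFactors.erase l₀,
          (Function.update b l₀ (y ::ₘ b l₀) l).map (incl (lev N l) N) =
          ∑ l ∈ N.primeFactors.erase l₀, (b l).map (incl (lev N l) N) := by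
        refine Finset.sum_congr rfl fun l hl => ?_
        rw [Function.update_of_ne (Finset.ne_of_mem_erase hl)]
      rw [h1, Multiset.cons_add, Finset.add_sum_erase _ (fun l => (b l).map (incl (lev N l) N)) hmem,
        ← hb1]
    · intro l
      by_cases hl : l = l₀
      · subst hl
        rw [Function.update_self, Multiset.mem_cons, not_or]
        exact ⟨fun h => hy0 h.symm, hb2 l⟩
      · rw [Function.update_of_ne hl]
        exact hb2 l

/-- the parts of a multiset of sum zero have sum zero -/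
theorem split_sum {N : ℕ} [NeZero N] (s : (l : ℕ) → ZMod (lev N l))
    (h : ∑ l ∈ N.primeFactors, incl (lev N l) N (s l) = 0) (l : ℕ) (hl : l ∈ N.primeFactors) :
    s l = 0 := by
  classical
  have hN : N ≠ 0 := NeZero.ne N
  have hlp : l.Prime := Nat.prime_of_mem_primeFactors hl
  have hne : NeZero (lev N l) := ⟨pow_ne_zero _ hlp.ne_zero⟩
  have h1 : ((N / lev N l : ℕ) : ZMod N) * ∑ l' ∈ N.primeFactors, incl (lev N l') N (s l') =
      incl (lev N l) N (((N / lev N l : ℕ) : ZMod (lev N l)) * s l) := by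
    rw [Finset.mul_sum, Finset.sum_eq_single_of_mem l hl, incl_mul (lev_dvd N l)]
    intro l' hl' hne'
    have hlp' : l'.Prime := Nat.prime_of_mem_primeFactors hl'
    have : NeZero (lev N l') := ⟨pow_ne_zero _ hlp'.ne_zero⟩
    rw [← incl_mul (lev_dvd N l')]
    have h2 : ((N / lev N l : ℕ) : ZMod (lev N l')) = 0 :=
      (ZMod.natCast_eq_zero_iff _ _).2 (lev_dvd_div hN hlp hlp' hne')
    rw [h2, zero_mul, incl_zero (lev_dvd N l')]
  rw [h, mul_zero] at h1
  have h2 : ((N / lev N l : ℕ) : ZMod (lev N l)) * s l = 0 := by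
    apply incl_inj (lev_dvd N l)
    rw [← h1, incl_zero (lev_dvd N l)]
  have hu : IsUnit ((N / lev N l : ℕ) : ZMod (lev N l)) := by
    rw [ZMod.isUnit_iff_coprime]
    exact (lev_coprime hN hlp).symm
  exact (hu.mul_right_eq_zero).1 h2

/-- the parts of a multiset with vanishing Stickelberger sums -/
theorem split_stk {N : ℕ} [NeZero N] (p n : ℕ) (hp : Nat.Coprime p N)
    (b : (l : ℕ) → Multiset (ZMod (lev N l))) (hb : ∀ l, 0 ∉ b l)
    (h : ∀ t : ℕ, Nat.Coprime t N →
      ((∑ l ∈ N.primeFactors, (b l).map (incl (lev N l) N)).map (stk N p n t)).sum = 0)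
    (l : ℕ) (hl : l ∈ N.primeFactors) (t : ℕ) (ht : Nat.Coprime t (lev N l)) :
    ((b l).map (stk (lev N l) p n t)).sum = 0 := by
  classical
  have hN : N ≠ 0 := NeZero.ne N
  have hlp : l.Prime := Nat.prime_of_mem_primeFactors hl
  have hne : NeZero (lev N l) := ⟨pow_ne_zero _ hlp.ne_zero⟩
  -- the sum formula
  have hform : ∀ t : ℕ, ((∑ l ∈ N.primeFactors, (b l).map (incl (lev N l) N)).map
      (stk N p n t)).sum = ∑ l ∈ N.primeFactors,
        (N / lev N l : ℕ) * ((b l).map (stk (lev N l) p n t)).sum := by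
    intro t
    have h1 : ∀ (F : Finset ℕ) (c : ℕ → Multiset (ZMod N)),
        ((∑ l ∈ F, c l).map (stk N p n t)).sum = ∑ l ∈ F, ((c l).map (stk N p n t)).sum := by
      intro F c
      induction F using Finset.induction_on with
      | empty => simp
      | insert x F hx ih =>
        rw [Finset.sum_insert hx, Finset.sum_insert hx, Multiset.map_add, Multiset.sum_add, ih]
    rw [h1]
    refine Finset.sum_congr rfl fun l' hl' => ?_
    have hlp' : l'.Prime := Nat.prime_of_mem_primeFactors hl'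
    have : NeZero (lev N l') := ⟨pow_ne_zero _ hlp'.ne_zero⟩
    rw [Multiset.map_map, ← Multiset.sum_map_mul_left]
    congr 1
    refine Multiset.map_congr rfl fun y _ => ?_
    exact stk_incl (lev_dvd N l') p n t y
  -- the opposite of t
  have hpos : 0 < lev N l := NeZero.pos _
  obtain ⟨t', ht'⟩ : ∃ t' : ℕ, (t' : ZMod (lev N l)) = -(t : ZMod (lev N l)) :=
    ⟨(-(t : ZMod (lev N l))).val, ZMod.natCast_zmod_val _⟩
  have ht'c : Nat.Coprime t' (lev N l) := by
    rw [← ZMod.isUnit_iff_coprime, ht']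
    exact ((ZMod.isUnit_iff_coprime _ _).2 ht).neg
  obtain ⟨s, hs1, hs2, hs3⟩ := crt_exists hN hlp t ht
  obtain ⟨s', hs1', hs2', hs3'⟩ := crt_exists hN hlp t' ht'c
  have e1 := h s hs1
  have e2 := h s' hs1'
  rw [hform, ← Finset.add_sum_erase _ _ hl] at e1 e2
  have e3 : ∑ x ∈ N.primeFactors.erase l, ((N / lev N x : ℕ) : ℤ) *
      ((b x).map (stk (lev N x) p n s)).sum = ∑ x ∈ N.primeFactors.erase l,
        ((N / lev N x : ℕ) : ℤ) * ((b x).map (stk (lev N x) p n s')).sum := by
    refine Finset.sum_congr rfl fun l' hl' => ?_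
    have hlp' : l'.Prime := Nat.prime_of_mem_primeFactors (Finset.mem_of_mem_erase hl')
    congr 2
    refine Multiset.map_congr rfl fun y _ => ?_
    apply stk_congr
    rw [hs3 l' hlp' (Finset.ne_of_mem_erase hl'), hs3' l' hlp' (Finset.ne_of_mem_erase hl')]
  have e4 : ((b l).map (stk (lev N l) p n s)).sum = ((b l).map (stk (lev N l) p n t)).sum := by
    congr 1
    exact Multiset.map_congr rfl fun y _ => stk_congr hs2 y
  have hpl : Nat.Coprime p (lev N l) := hp.coprime_dvd_right (lev_dvd N l)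
  have e5 : ((b l).map (stk (lev N l) p n s')).sum = -((b l).map (stk (lev N l) p n t)).sum := by
    rw [← Multiset.sum_map_neg', Multiset.map_map]
    congr 1
    refine Multiset.map_congr rfl fun y hy => ?_
    rw [Function.comp_apply, stk_congr hs2' y]
    exact stk_neg hpl ht ht' fun h => hb l (h ▸ hy)
  rw [e4] at e1
  rw [e5, ← e3] at e2
  have hpos' : (0 : ℤ) < ((N / lev N l : ℕ) : ℤ) := by
    have : 0 < N / lev N l := Nat.div_pos (Nat.le_of_dvd (Nat.pos_of_ne_zero hN) (lev_dvd N l)) hpos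
    exact_mod_cast this
  have e6 : ((N / lev N l : ℕ) : ℤ) * (2 * ((b l).map (stk (lev N l) p n t)).sum) = 0 := by
    linarith
  rcases mul_eq_zero.1 e6 with h7 | h7
  · exact absurd h7 hpos'.ne'
  · linarith

end Fermat950
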