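import Mathlib
import Pool.Agent.Lib.MP_950c68_ag.F2.Gen
import Pool.Agent.Lib.MP_950c68_ag.F2.Split

/-!
# Multisets of elements of prime power order, arbitrary level
-/

set_option autoImplicit false

open Finset

namespace Fermat950

theorem map_sum_finset {α β γ : Type} [AddCommMonoid γ] (F : Finset α) (c : α → Multiset β)
    (g : β → γ) : ((∑ l ∈ F, c l).map g).sum = ∑ l ∈ F, ((c l).map g).sum := by
  classical
  induction F using Finset.induction_on with
  | empty => simp
  | insert x F hx ih =>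
    rw [Finset.sum_insert hx, Finset.sum_insert hx, Multiset.map_add, Multiset.sum_add, ih]

theorem card_sum_finset {α β : Type} (F : Finset α) (c : α → Multiset β) :
    Multiset.card (∑ l ∈ F, c l) = ∑ l ∈ F, Multiset.card (c l) := by
  classical
  induction F using Finset.induction_on with
  | empty => simp
  | insert x F hx ih =>
    rw [Finset.sum_insert hx, Finset.sum_insert hx, Multiset.card_add, ih]

section
variable {k : Type} [Field k] [Fintype k] {N : ℕ} [NeZero N] {χ : MulChar k ℂ} {ψ : AddChar k ℂ}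

/-- one prime -/
theorem core_prime (hχ : orderOf χ = N) (hψ : ψ ≠ 1) (p n : ℕ) [Fact p.Prime] [CharP k p]
    (hn : 0 < n) (hpn : (p : ZMod N) ^ n = 1)
    (τ : (ZMod N → ℤ) ⧸ (relS χ ψ)) (hτ : τ + τ = 0)
    (htri : ∀ x y z : ZMod N, x ≠ 0 → y ≠ 0 → z ≠ 0 → x + y + z = 0 → Pure χ ψ {x, y, z} →
      cls χ ψ x + cls χ ψ y + cls χ ψ z = τ)
    (l : ℕ) [Fact l.Prime] (e : ℕ) (he : 0 < e) (hlN : l ^ e ∣ N)
    (b : Multiset (ZMod (l ^ e))) (hb : 0 ∉ b) (hbs : b.sum = 0)
    (hst : ∀ t : ℕ, Nat.Coprime t (l ^ e) → (b.map (stk (l ^ e) p n t)).sum = 0) :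
    (b.map fun y => cls χ ψ (incl (l ^ e) N y)).sum = Multiset.card b • τ := by
  classical
  have hl : l.Prime := Fact.out
  have hne : NeZero (l ^ e) := ⟨pow_ne_zero _ hl.ne_zero⟩
  have hlN' : l ∣ N := (dvd_pow_self l he.ne').trans hlN
  have hpM : (p : ZMod (l ^ e)) ^ n = 1 := by
    have h1 := congrArg (ZMod.castHom hlN (ZMod (l ^ e))) hpn
    rw [map_pow, map_natCast, map_one] at h1
    exact h1
  set P : (ZMod (l ^ e))ˣ := Units.ofPowEqOne (p : ZMod (l ^ e)) n hpM hn.ne' with hP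
  have hPval : (P : ZMod (l ^ e)) = (p : ZMod (l ^ e)) := rfl
  have hPn : P ^ n = 1 := by
    ext; rw [Units.val_pow_eq_pow_val, hPval, hpM]; rfl
  have hmul : ∀ y : ZMod (l ^ e), incl (l ^ e) N ((P : ZMod (l ^ e)) * y) =
      (p : ZMod N) * incl (l ^ e) N y := fun y => by rw [hPval, incl_mul hlN]
  have hmulp : ∀ (i : ℕ) (y : ZMod (l ^ e)), incl (l ^ e) N (((P ^ i : (ZMod (l ^ e))ˣ) :
      ZMod (l ^ e)) * y) = (p : ZMod N) ^ i * incl (l ^ e) N y := fun i y => by
    rw [Units.val_pow_eq_pow_val, hPval, ← Nat.cast_pow, incl_mul hlN, Nat.cast_pow]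
  have hhalf : l = 2 → incl (l ^ e) N ((l ^ e / 2 : ℕ) : ZMod (l ^ e)) = ((N / 2 : ℕ) : ZMod N) := by
    intro hl2
    rw [incl_natCast hlN]
    congr 1
    obtain ⟨c, hc⟩ := hlN
    obtain ⟨r, hr⟩ : 2 ∣ l ^ e := hl2 ▸ dvd_pow_self l he.ne'
    have hpos : 0 < l ^ e := NeZero.pos _
    have h1 : N / l ^ e = c := by rw [hc, Nat.mul_div_cancel_left c hpos]
    rw [h1]
    have h2 : l ^ e / 2 = r := by omega
    rw [h2, hc, hr, mul_assoc, Nat.mul_div_cancel_left _ two_pos, mul_comm]
  refine level_class l e he (fun y => cls χ ψ (incl (l ^ e) N y)) P n hn hPn τ hτ ?_ ?_ ?_ ?_ ?_ ?_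
    b hb hbs ?_
  · show cls χ ψ (incl (l ^ e) N 0) = 0
    rw [incl_zero hlN, cls_zero]
  · intro x
    show cls χ ψ (incl (l ^ e) N (-x)) = - cls χ ψ (incl (l ^ e) N x)
    rw [incl_neg hlN, cls_neg]
  · intro c hc
    show cls χ ψ (incl (l ^ e) N ((l : ZMod (l ^ e)) * c)) = _
    have h1 := incl_ne_zero hlN hc
    rw [incl_mul hlN] at h1
    rw [incl_mul hlN, cls_dist hl hlN' _ h1]
    congr 1
    · rw [Multiset.map_map, Multiset.map_map]
      congr 1
      refine Multiset.map_congr rfl fun i _ => ?_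
      simp only [Function.comp_apply]
      rw [incl_add hlN, incl_mul hlN, incl_natCast hlN]
      congr 4
      rw [Nat.div_mul_div_comm hlN (dvd_pow_self l he.ne'), mul_comm N (l ^ e),
        Nat.mul_div_mul_left _ _ (NeZero.pos (l ^ e))]
    · by_cases hl2 : l = 2
      · rw [if_pos hl2, if_pos hl2, hhalf hl2]
      · rw [if_neg hl2, if_neg hl2]
  · intro x y z hx hy hz hxyz
    have hP0 : ∀ w : ZMod (l ^ e), w ≠ 0 → -((P : ZMod (l ^ e)) * w) ≠ 0 := fun w hw =>
      neg_ne_zero.2 fun h => hw (by simpa using h)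
    have hneg : ∀ w : ZMod (l ^ e), incl (l ^ e) N (-((P : ZMod (l ^ e)) * w)) =
        -((p : ZMod N) ^ 1 * incl (l ^ e) N w) := fun w => by
      rw [incl_neg hlN, hmul, pow_one]
    refine cls_curves (incl_ne_zero hlN hx) (incl_ne_zero hlN hy) (incl_ne_zero hlN hz)
      (incl_ne_zero hlN (hP0 x hx)) (incl_ne_zero hlN (hP0 y hy)) (incl_ne_zero hlN (hP0 z hz))
      ?_ ?_ ?_
    · rw [← incl_add hlN, ← incl_add hlN, hxyz, incl_zero hlN]
    · rw [← incl_add hlN, ← incl_add hlN, ← neg_add, ← neg_add, ← mul_add, ← mul_add, hxyz,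
        mul_zero, neg_zero, incl_zero hlN]
    · rw [hneg, hneg, hneg]
      have e1 := pure_pair (χ := χ) (ψ := ψ) hχ hψ p 1 (incl_ne_zero hlN hx)
      have e2 := pure_pair (χ := χ) (ψ := ψ) hχ hψ p 1 (incl_ne_zero hlN hy)
      have e3 := pure_pair (χ := χ) (ψ := ψ) hχ hψ p 1 (incl_ne_zero hlN hz)
      have e4 := (e1.add e2).add e3
      convert e4 using 1
      simp only [Multiset.insert_eq_cons, ← Multiset.singleton_add]
      abel
  · rintro ⟨i, hi⟩ x y z hx hy hz hxyz
    have hsing : ∀ w : ZMod (l ^ e), w ≠ 0 → Pure χ ψ {incl (l ^ e) N w} := fun w hw => by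
      refine pure_single' hχ hψ p i ?_ (incl_ne_zero hlN hw)
      rw [← hmulp, hi, Units.val_neg, Units.val_one, neg_one_mul, incl_neg hlN]
    refine htri _ _ _ (incl_ne_zero hlN hx) (incl_ne_zero hlN hy) (incl_ne_zero hlN hz) ?_
      (pure_triple (hsing x hx) (hsing y hy) (hsing z hz))
    rw [← incl_add hlN, ← incl_add hlN, hxyz, incl_zero hlN]
  · intro hl2 z hz hz2
    set h : ZMod (l ^ e) := ((l ^ e / 2 : ℕ) : ZMod (l ^ e)) with hh
    have h2m : 2 ∣ l ^ e := hl2 ▸ dvd_pow_self l he.ne'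
    have hneg' : -h = h := half_neg h2m
    have hh0 : h ≠ 0 := by
      intro hc
      rw [hh] at hc
      rw [ZMod.natCast_eq_zero_iff] at hc
      obtain ⟨c, hc'⟩ := h2m
      have hpos := NeZero.pos (l ^ e)
      rw [hc'] at hc hpos
      rw [Nat.mul_div_cancel_left c two_pos] at hc
      have := Nat.le_of_dvd (by omega) hc
      omega
    have hPz : -((P : ZMod (l ^ e)) * z) ≠ 0 := neg_ne_zero.2 fun h => hz (by simpa using h)
    refine htri _ _ _ (incl_ne_zero hlN hz) (incl_ne_zero hlN hPz) (incl_ne_zero hlN hh0) ?_ ?_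
    · rw [← incl_add hlN, ← incl_add hlN]
      have h1 : z + -((P : ZMod (l ^ e)) * z) + h = 0 := by
        have : z + -((P : ZMod (l ^ e)) * z) = h := by rw [← hz2]; ring
        rw [this]
        nth_rewrite 1 [← hneg']
        simp
      rw [h1, incl_zero hlN]
    · have e1 := pure_pair (χ := χ) (ψ := ψ) hχ hψ p 1 (incl_ne_zero hlN hz)
      have e2 : Pure χ ψ {incl (l ^ e) N h} := by
        refine pure_single' hχ hψ p 0 ?_ (incl_ne_zero hlN hh0)
        rw [pow_zero, one_mul, ← incl_neg hlN, hneg']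
      have e3 := e1.add e2
      rw [incl_neg hlN, hmul]
      rw [pow_one] at e3
      convert e3 using 1
      simp only [Multiset.insert_eq_cons, ← Multiset.singleton_add, add_assoc]
  · intro t
    have h1 := hst (t : ZMod (l ^ e)).val (ZMod.val_coe_unit_coprime t)
    have h2 : ((b.map (stk (l ^ e) p n (t : ZMod (l ^ e)).val)).sum : ℤ) =
        2 * ∑ i ∈ range n, ((b.map fun x => (((t * P ^ i : (ZMod (l ^ e))ˣ) :
          ZMod (l ^ e)) * x).val).sum : ℤ) - (l ^ e : ℕ) * n * Multiset.card b := by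
      clear h1 hst hbs hb
      induction b using Multiset.induction_on with
      | empty => simp
      | cons x b ih =>
        rw [Multiset.map_cons, Multiset.sum_cons, ih]
        simp only [Multiset.map_cons, Multiset.sum_cons, Multiset.card_cons]
        unfold stk
        have h3 : ∀ i, (((p ^ i * (t : ZMod (l ^ e)).val : ℕ) : ZMod (l ^ e)) * x).val =
            (((t * P ^ i : (ZMod (l ^ e))ˣ) : ZMod (l ^ e)) * x).val := by
          intro i
          congr 1
          rw [Nat.cast_mul, ZMod.natCast_zmod_val, Units.val_mul, Units.val_pow_eq_pow_val, hPval]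
          push_cast
          ring
        simp only [h3]
        push_cast
        rw [Finset.sum_add_distrib]
        ring
    rw [h2] at h1
    have h3 : (2 * ∑ i ∈ range n, ((b.map fun x => (((t * P ^ i : (ZMod (l ^ e))ˣ) :
          ZMod (l ^ e)) * x).val).sum : ℤ)) = (l ^ e : ℕ) * n * Multiset.card b := by linarith
    exact_mod_cast h3

/-- multisets of elements of prime power order -/
theorem core_class (hχ : orderOf χ = N) (hψ : ψ ≠ 1) (p n : ℕ) [Fact p.Prime] [CharP k p]
    (hn : 0 < n) (hpn : (p : ZMod N) ^ n = 1)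
    (τ : (ZMod N → ℤ) ⧸ (relS χ ψ)) (hτ : τ + τ = 0)
    (htri : ∀ x y z : ZMod N, x ≠ 0 → y ≠ 0 → z ≠ 0 → x + y + z = 0 → Pure χ ψ {x, y, z} →
      cls χ ψ x + cls χ ψ y + cls χ ψ z = τ)
    (a : Multiset (ZMod N)) (h0 : 0 ∉ a) (hs : a.sum = 0)
    (hpp : ∀ x ∈ a, IsPrimePow (addOrderOf x))
    (hst : ∀ t : ℕ, Nat.Coprime t N → (a.map (stk N p n t)).sum = 0) :
    (a.map (cls χ ψ)).sum = Multiset.card a • τ := by
  classical
  have hN : N ≠ 0 := NeZero.ne N
  obtain ⟨b, hab, hb0⟩ := exists_split a h0 hpp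
  have hcop : Nat.Coprime p N := by
    rw [← ZMod.isUnit_iff_coprime]
    exact IsUnit.of_pow_eq_one hpn hn.ne'
  have hbs : ∀ l ∈ N.primeFactors, (b l).sum = 0 := by
    refine split_sum (fun l => (b l).sum) ?_
    rw [← hs, hab]
    have h1 := map_sum_finset N.primeFactors (fun l => (b l).map (incl (lev N l) N)) id
    rw [Multiset.map_id] at h1
    rw [h1]
    refine Finset.sum_congr rfl fun l hl => ?_
    have hlp : l.Prime := Nat.prime_of_mem_primeFactors hl
    have : NeZero (lev N l) := ⟨pow_ne_zero _ hlp.ne_zero⟩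
    rw [Multiset.map_id, incl_multiset_sum (lev_dvd N l)]
  have hstl : ∀ l ∈ N.primeFactors, ∀ t : ℕ, Nat.Coprime t (lev N l) →
      ((b l).map (stk (lev N l) p n t)).sum = 0 := fun l hl t ht =>
    split_stk p n hcop b hb0 (by rw [← hab]; exact hst) l hl t ht
  have hcl : ∀ l ∈ N.primeFactors,
      (((b l).map (incl (lev N l) N)).map (cls χ ψ)).sum =
        Multiset.card ((b l).map (incl (lev N l) N)) • τ := by
    intro l hl
    have hlp : l.Prime := Nat.prime_of_mem_primeFactors hl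
    have : Fact l.Prime := ⟨hlp⟩
    have hlN : l ∣ N := Nat.dvd_of_mem_primeFactors hl
    rw [Multiset.map_map, Multiset.card_map]
    exact core_prime hχ hψ p n hn hpn τ hτ htri l (N.factorization l)
      (lev_pos_exp hN hlp hlN) (lev_dvd N l) (b l) (hb0 l) (hbs l hl) (hstl l hl)
  rw [hab, map_sum_finset, Finset.sum_congr rfl hcl, card_sum_finset, Finset.sum_smul]

end

end Fermat950
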