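import Mathlib
import Pool.Agent.Lib.MP_950c68_ag.F.Lift2

/-!
# Lifting of characters to units at an arbitrary level
-/

set_option autoImplicit false

open Finset

namespace Fermat950

section lift
variable {m : ℕ} [NeZero m] {W : Type} [AddCommGroup W]

/-- the sum over a fibre -/
theorem fiber_sum3 {l : ℕ} (hl : l.Prime) (hlm : l ∣ m) (h : ZMod m)
    (hh : 2 ∣ m → h = ((m / 2 : ℕ) : ZMod m)) (c : ZMod m) :
    (l : ZMod m) * c = ((Multiset.range l).map
          (fun i : ℕ => c + (i : ZMod m) * ((m / l : ℕ) : ZMod m))).sum +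
        (if l = 2 then h else 0) := by
  have h0 : ((Multiset.range l).map
          (fun i : ℕ => c + (i : ZMod m) * ((m / l : ℕ) : ZMod m))).sum =
      ∑ i ∈ range l, (c + (i : ZMod m) * ((m / l : ℕ) : ZMod m)) := rfl
  obtain ⟨r, hr⟩ := id hlm
  have hmd : m / l = r := by
    conv_lhs => rw [hr]
    exact Nat.mul_div_cancel_left r hl.pos
  rw [h0, Finset.sum_add_distrib, Finset.sum_const, card_range, ← Finset.sum_mul, hmd,
    ← Nat.cast_sum, nsmul_eq_mul]
  have hlr : ((l * r : ℕ) : ZMod m) = 0 := by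
    rw [ZMod.natCast_eq_zero_iff, ← hr]
  rcases hl.eq_two_or_odd with hl2 | hl2
  · rw [if_pos hl2, hh (hl2 ▸ hlm)]
    have h1 : m / 2 = r := by rw [← hmd, hl2]
    rw [h1]
    have h2 : (∑ i ∈ range l, i) = 1 := by rw [hl2]; rfl
    rw [h2]
    have h3 : (r : ZMod m) + r = 0 := by
      rw [← hlr, hl2]; push_cast; ring
    calc (l : ZMod m) * c = l * c + 0 := by ring
      _ = _ := by rw [← h3]; push_cast; ring
  · rw [if_neg (by omega), add_zero]
    have h2 : (∑ i ∈ range l, i) = l * ((l - 1) / 2) := by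
      have := Finset.sum_range_id_mul_two l
      have h4 : (l - 1) / 2 * 2 = l - 1 := by omega
      have h5 : (∑ i ∈ range l, i) * 2 = l * ((l - 1) / 2) * 2 := by
        rw [this, mul_assoc, h4]
      exact Nat.eq_of_mul_eq_mul_right two_pos h5
    have h3 : (((∑ i ∈ range l, i : ℕ) : ZMod m)) * (r : ZMod m) = 0 := by
      rw [h2, ← Nat.cast_mul]
      have : l * ((l - 1) / 2) * r = (l * r) * ((l - 1) / 2) := by ring
      rw [this, Nat.cast_mul, hlr, zero_mul]
    rw [h3, add_zero]

/-- the lifting of a character whose order has all the prime factors of the level to units, by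
the distribution relations -/
theorem exists_lift3 (f : ZMod m → W) (h : ZMod m)
    (hh : 2 ∣ m → h = ((m / 2 : ℕ) : ZMod m))
    (hdist : ∀ l : ℕ, l.Prime → l ∣ m → ∀ c : ZMod m, (l : ZMod m) * c ≠ 0 →
      f ((l : ZMod m) * c) =
        (((Multiset.range l).map
          (fun i : ℕ => c + (i : ZMod m) * ((m / l : ℕ) : ZMod m))).map f).sum +
          (if l = 2 then f h else 0))
    (x : ZMod m) (hx : ∀ l : ℕ, l.Prime → l ∣ m → ¬ l ^ m.factorization l ∣ x.val) :
    ∃ (ν : Multiset (ZMod m)ˣ) (ε : ℕ), (¬ 2 ∣ m → ε = 0) ∧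
      f x = (ν.map (fun u : (ZMod m)ˣ => f (u : ZMod m))).sum + ε • f h ∧
      x = (ν.map (fun u : (ZMod m)ˣ => (u : ZMod m))).sum + ε • h ∧
      Odd (Multiset.card ν + ε) ∧
      ∀ t : (ZMod m)ˣ,
        2 * (ν.map (fun u : (ZMod m)ˣ => ((t : ZMod m) * u).val)).sum + m =
          2 * ((t : ZMod m) * x).val + m * Multiset.card ν := by
  classical
  have hm0 : m ≠ 0 := NeZero.ne m
  induction hg : Nat.gcd x.val m using Nat.strong_induction_on generalizing x with
  | _ g ih =>
  by_cases hg1 : g = 1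
  · have hu : IsUnit x := by
      rw [← ZMod.natCast_zmod_val x, ZMod.isUnit_iff_coprime]
      exact hg.trans hg1
    obtain ⟨u, rfl⟩ := hu
    exact ⟨{u}, 0, fun _ => rfl, by simp, by simp, by simp, fun t => by simp⟩
  · -- a prime factor
    have hl : (g.minFac).Prime := Nat.minFac_prime hg1
    set l := g.minFac with hldef
    have hlg : l ∣ g := Nat.minFac_dvd g
    have hlm : l ∣ m := (hg ▸ hlg : l ∣ Nat.gcd x.val m).trans (Nat.gcd_dvd_right _ _)
    have hlx : l ∣ x.val := (hg ▸ hlg : l ∣ Nat.gcd x.val m).trans (Nat.gcd_dvd_left _ _)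
    obtain ⟨c', hc'⟩ := hlx
    set c : ZMod m := (c' : ZMod m) with hcdef
    have hc : x = (l : ZMod m) * c := by
      rw [hcdef, ← Nat.cast_mul, ← hc', ZMod.natCast_zmod_val]
    have hx0 : x ≠ 0 := by
      rintro rfl
      exact hx l hl hlm (by rw [ZMod.val_zero]; exact dvd_zero _)
    have hc0 : (l : ZMod m) * c ≠ 0 := hc ▸ hx0
    -- the fibre
    let F : Finset (ZMod m) :=
      univ.filter (fun y : ZMod m => (l : ZMod m) * y = (l : ZMod m) * c)
    have hF := fiber_eq (m := m) (d := l) hlm c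
    -- the elements of the fibre
    have hval : ∀ y ∈ F, l * y.val ≡ x.val [MOD m] := by
      intro y hy
      simp only [F, mem_filter, mem_univ, true_and] at hy
      rw [← ZMod.natCast_eq_natCast_iff]
      push_cast
      rw [ZMod.natCast_zmod_val, ZMod.natCast_zmod_val, hy, ← hc]
    have hmem : ∀ y ∈ F, ∀ l' : ℕ, l'.Prime → l' ∣ m → ¬ l' ^ m.factorization l' ∣ y.val := by
      intro y hy l' hl' hlm' hd
      apply hx l' hl' hlm'
      have h1 : l' ^ m.factorization l' ∣ m := Nat.ordProj_dvd m l'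
      have h2 : l' ^ m.factorization l' ∣ l * y.val := hd.mul_left l
      exact ((hval y hy).dvd_iff h1).1 h2
    have hlt : ∀ y ∈ F, Nat.gcd y.val m < g := by
      intro y hy
      have hne := hmem y hy l hl hlm
      have h1 : Nat.gcd (l * y.val) m = g := by rw [(hval y hy).gcd_eq, hg]
      -- l * gcd(y, m) ∣ g
      obtain ⟨r, hr⟩ := Nat.gcd_dvd_right y.val m
      have hlr : l ∣ r := by
        by_contra hlr
        apply hne
        refine Nat.dvd_trans ?_ (Nat.gcd_dvd_left y.val m)
        have h2 : Nat.Coprime (l ^ m.factorization l) r :=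
          Nat.Coprime.pow_left _ ((hl.coprime_iff_not_dvd).2 hlr)
        refine h2.dvd_of_dvd_mul_right ?_
        rw [← hr]
        exact Nat.ordProj_dvd m l
      obtain ⟨s, hs⟩ := hlr
      have h3 : l * Nat.gcd y.val m ∣ g := by
        rw [← h1]
        refine Nat.dvd_gcd (Nat.mul_dvd_mul_left l (Nat.gcd_dvd_left _ _)) ⟨s, ?_⟩
        rw [hs] at hr
        nth_rewrite 1 [hr]
        ring
      have hgpos : 0 < g := by
        rw [← hg]
        exact Nat.gcd_pos_of_pos_right _ (Nat.pos_of_ne_zero hm0)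
      have hypos : 0 < Nat.gcd y.val m := Nat.gcd_pos_of_pos_right _ (Nat.pos_of_ne_zero hm0)
      have h4 := Nat.le_of_dvd hgpos h3
      have h5 : 2 * Nat.gcd y.val m ≤ l * Nat.gcd y.val m := Nat.mul_le_mul_right _ hl.two_le
      omega
    choose! ν ε h1 h2 h3 h4 h5 using fun y hy => ih _ (hlt y hy) y (hmem y hy) rfl
    have hcardF : F.card = l := by
      have := congrArg Multiset.card hF
      rw [Multiset.card_map, Multiset.card_range] at this
      exact this.symm
    refine ⟨∑ y ∈ F, ν y, ∑ y ∈ F, ε y + (if l = 2 then 1 else 0), ?_, ?_, ?_, ?_, ?_⟩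
    · intro hm2
      have hl2 : l ≠ 2 := fun h2 => hm2 (h2 ▸ hlm)
      rw [if_neg hl2, add_zero]
      exact Finset.sum_eq_zero fun y hy => h1 y hy hm2
    · rw [hc, hdist l hl hlm c hc0, hF]
      have hs1 : (F.val.map f).sum = ∑ y ∈ F, f y := rfl
      rw [hs1, map_sum_sum, Finset.sum_congr rfl h2, Finset.sum_add_distrib, add_smul,
        Finset.sum_smul, add_assoc]
      congr 2
      split_ifs <;> simp
    · rw [map_sum_sum]
      have hs1 := fiber_sum3 hl hlm h hh c
      have hs2 : F.val.sum = ∑ y ∈ F, y := by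
        show _ = (F.val.map (fun y => y)).sum
        rw [Multiset.map_id']
      rw [hF] at hs1
      change (l : ZMod m) * c = F.val.sum + _ at hs1
      rw [hs2, Finset.sum_congr rfl h3, Finset.sum_add_distrib, ← hc] at hs1
      rw [add_smul, Finset.sum_smul, ← add_assoc]
      refine hs1.trans ?_
      congr 1
      split_ifs <;> simp
    · rw [card_sum_sum, ← add_assoc, ← Finset.sum_add_distrib]
      choose! r hr using fun y hy => h4 y hy
      rw [Finset.sum_congr rfl hr, Finset.sum_add_distrib, Finset.sum_const, hcardF,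
        ← Finset.mul_sum]
      rcases hl.eq_two_or_odd with hl2 | hl2
      · rw [if_pos hl2]
        exact ⟨∑ y ∈ F, r y + 1, by simp only [smul_eq_mul, mul_one]; omega⟩
      · rw [if_neg (by omega)]
        exact ⟨∑ y ∈ F, r y + (l - 1) / 2, by simp; omega⟩
    · intro t
      rw [map_sum_sum, card_sum_sum]
      have hs1 : ∑ y ∈ F, (2 * ((ν y).map (fun u : (ZMod m)ˣ =>
          ((t : ZMod m) * u).val)).sum + m) =
          ∑ y ∈ F, (2 * ((t : ZMod m) * y).val + m * Multiset.card (ν y)) :=
        Finset.sum_congr rfl fun y hy => h5 y hy t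
      rw [Finset.sum_add_distrib, Finset.sum_add_distrib, Finset.sum_const, hcardF,
        ← Finset.mul_sum, ← Finset.mul_sum, ← Finset.mul_sum, smul_eq_mul] at hs1
      have hs2 := fiber_val_sum (m := m) (d := l) hlm ((t : ZMod m) * c)
      have hs3 := fiber_mul (m := m) (d := l) c t (fun y => y.val)
      rw [← hs3] at hs2
      have hs4 : (l : ZMod m) * ((t : ZMod m) * c) = (t : ZMod m) * x := by
        rw [hc]; ring
      rw [hs4] at hs2
      have hs5 : l * m = m * l := mul_comm _ _
      change 2 * ∑ y ∈ F, ((t : ZMod m) * y).val + m = _ at hs2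
      omega

/-- the lifting of a multiset -/
theorem exists_lift_multiset3 (f : ZMod m → W) (h : ZMod m)
    (hh : 2 ∣ m → h = ((m / 2 : ℕ) : ZMod m))
    (hdist : ∀ l : ℕ, l.Prime → l ∣ m → ∀ c : ZMod m, (l : ZMod m) * c ≠ 0 →
      f ((l : ZMod m) * c) =
        (((Multiset.range l).map
          (fun i : ℕ => c + (i : ZMod m) * ((m / l : ℕ) : ZMod m))).map f).sum +
          (if l = 2 then f h else 0))
    (a : Multiset (ZMod m))
    (ha : ∀ x ∈ a, ∀ l : ℕ, l.Prime → l ∣ m → ¬ l ^ m.factorization l ∣ x.val) :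
    ∃ (ν : Multiset (ZMod m)ˣ) (ε : ℕ), (¬ 2 ∣ m → ε = 0) ∧
      (a.map f).sum = (ν.map (fun u : (ZMod m)ˣ => f (u : ZMod m))).sum + ε • f h ∧
      a.sum = (ν.map (fun u : (ZMod m)ˣ => (u : ZMod m))).sum + ε • h ∧
      Even (Multiset.card ν + ε + Multiset.card a) ∧
      ∀ t : (ZMod m)ˣ,
        2 * (ν.map (fun u : (ZMod m)ˣ => ((t : ZMod m) * u).val)).sum +
            m * Multiset.card a =
          2 * (a.map (fun x => ((t : ZMod m) * x).val)).sum + m * Multiset.card ν := by
  induction a using Multiset.induction_on with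
  | empty => exact ⟨0, 0, fun _ => rfl, by simp, by simp, by simp, fun t => by simp⟩
  | cons x a ih =>
    obtain ⟨ν, ε, h1, h2, h3, h4, h5⟩ := ih fun y hy => ha y (Multiset.mem_cons_of_mem hy)
    obtain ⟨μ, δ, g1, g2, g3, g4, g5⟩ := exists_lift3 f h hh hdist x
      (ha x (Multiset.mem_cons_self x a))
    refine ⟨μ + ν, δ + ε, fun hl2 => by rw [g1 hl2, h1 hl2], ?_, ?_, ?_, ?_⟩
    · rw [Multiset.map_cons, Multiset.sum_cons, Multiset.map_add, Multiset.sum_add, h2, g2,
        add_smul]
      abel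
    · rw [Multiset.sum_cons, Multiset.map_add, Multiset.sum_add, h3, add_smul]
      nth_rewrite 1 [g3]
      abel
    · obtain ⟨r, hr⟩ := h4
      obtain ⟨s, hs⟩ := g4
      rw [Multiset.card_add, Multiset.card_cons]
      exact ⟨r + s + 1, by omega⟩
    · intro t
      have e1 := h5 t
      have e2 := g5 t
      rw [Multiset.map_add, Multiset.sum_add, Multiset.card_add, Multiset.card_cons,
        Multiset.map_cons, Multiset.sum_cons]
      rw [mul_add, mul_add, mul_add, mul_add, mul_one]
      omega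

end lift

end Fermat950
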