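import Mathlib
import Pool.Agent.Lib.MP_950c68_ag.F.Comb
import Pool.Agent.Lib.MP_950c68_ag.F.Fourier
import Pool.Agent.Lib.MP_950c68_ag.F2.Lift3
import Pool.Agent.Lib.MP_950c68_ag.F2.Bern2

/-!
# The abstract theorem at an almost supersingular level
-/

set_option autoImplicit false

open Finset

namespace Fermat950

theorem level_almost {m : ℕ} [NeZero m] {W : Type} [AddCommGroup W] (f : ZMod m → W)
    (p : ℕ) (P : (ZMod m)ˣ) (hPp : (P : ZMod m) = (p : ZMod m)) (n : ℕ) (hn : 0 < n)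
    (hPn : P ^ n = 1) (hcase : ∀ i : ℕ, P ^ i ≠ -1) (hAS : AlmostSS p m) (h : ZMod m)
    (hh : 2 ∣ m → h = ((m / 2 : ℕ) : ZMod m)) (f0 : f 0 = 0) (hneg : ∀ x, f (-x) = - f x)
    (hdist : ∀ l : ℕ, l.Prime → l ∣ m → ∀ c : ZMod m, (l : ZMod m) * c ≠ 0 →
      f ((l : ZMod m) * c) =
        (((Multiset.range l).map
          (fun i : ℕ => c + (i : ZMod m) * ((m / l : ℕ) : ZMod m))).map f).sum +
          (if l = 2 then f h else 0))
    (hfrob : ∀ x y z : ZMod m, x ≠ 0 → y ≠ 0 → z ≠ 0 → x + y + z = 0 →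
      (f x + f y + f z) + (f (-(P * x)) + f (-(P * y)) + f (-(P * z))) = 0)
    (a : Multiset (ZMod m))
    (ha : ∀ x ∈ a, ∀ l : ℕ, l.Prime → l ∣ m → ¬ l ^ m.factorization l ∣ x.val)
    (hst : ∀ t : (ZMod m)ˣ,
      2 * ∑ i ∈ range n,
        (a.map fun x => (((t * P ^ i : (ZMod m)ˣ) : ZMod m) * x).val).sum =
        m * n * Multiset.card a) :
    ∃ (ε : ℕ) (z : ZMod m), (¬ 2 ∣ m → ε = 0) ∧
      (a.map f).sum = f z - f (P * z) + ε • f h ∧
      a.sum = (1 - (P : ZMod m)) * z + ε • h ∧ Even (Multiset.card a + ε) := by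
  classical
  have hcop : Nat.Coprime p m := by
    rw [← ZMod.isUnit_iff_coprime, ← hPp]
    exact P.isUnit
  obtain ⟨ν, ε, h1, h2, h3, h4, h5⟩ := exists_lift_multiset3 f h hh hdist a ha
  have hst' : ∀ t : (ZMod m)ˣ,
      2 * ∑ i ∈ range n,
        (ν.map fun u => ((t * P ^ i * u : (ZMod m)ˣ) : ZMod m).val).sum =
        m * n * Multiset.card ν := by
    intro t
    have h6 := hst t
    have h7 : ∀ i, 2 * (ν.map fun u => ((t * P ^ i * u : (ZMod m)ˣ) :
          ZMod m).val).sum + m * Multiset.card a =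
        2 * (a.map fun x : ZMod m =>
          (((t * P ^ i : (ZMod m)ˣ) : ZMod m) * x).val).sum +
        m * Multiset.card ν := by
      intro i
      have h5i := h5 (t * P ^ i)
      have g1 : (ν.map fun u => ((t * P ^ i * u : (ZMod m)ˣ) : ZMod m).val) =
          ν.map (fun u : (ZMod m)ˣ =>
            (((t * P ^ i : (ZMod m)ˣ) : ZMod m) * u).val) :=
        Multiset.map_congr rfl fun u _ => by rw [Units.val_mul (t * P ^ i) u]
      rw [g1]
      exact h5i
    have h8 : ∑ i ∈ range n, (2 * (ν.map fun u =>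
        ((t * P ^ i * u : (ZMod m)ˣ) : ZMod m).val).sum + m * Multiset.card a) =
        ∑ i ∈ range n, (2 * (a.map fun x : ZMod m =>
          (((t * P ^ i : (ZMod m)ˣ) : ZMod m) * x).val).sum +
        m * Multiset.card ν) := Finset.sum_congr rfl fun i _ => h7 i
    rw [Finset.sum_add_distrib, Finset.sum_add_distrib, Finset.sum_const, Finset.sum_const,
      card_range, smul_eq_mul, smul_eq_mul, ← Finset.mul_sum, ← Finset.mul_sum, h6] at h8
    have h9 : n * (m * Multiset.card a) = m * n * Multiset.card a := by ring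
    have h10 : n * (m * Multiset.card ν) = m * n * Multiset.card ν := by ring
    rw [h9, h10] at h8
    omega
  have hb := balanced_of_stick_gen m P n hPn ν (fun χ hodd hχ =>
    sum_val_ne_zero_full χ hodd (full_of_almost p hcop hAS χ hodd (hPp ▸ hχ))) hst'
  have hbal : ∀ u, bal P n ν u = 0 := by
    intro u
    unfold bal
    rw [Finset.sum_sub_distrib, sub_eq_zero]
    exact_mod_cast hb u
  obtain ⟨hνev, z, hz1, hz2⟩ := comb_ordinary f P n hn hPn hcase f0 hneg hfrob ν hbal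
  refine ⟨ε, z, h1, ?_, ?_, ?_⟩
  · rw [h2, hz1]
  · rw [h3, hz2]
  · obtain ⟨r1, hr1⟩ := h4
    obtain ⟨r2, hr2⟩ := hνev
    exact ⟨r1 - r2, by omega⟩

end Fermat950
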