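import Mathlib
import Pool.Agent.Lib.MP_950c68_ag.F2.Incl
import Pool.Agent.Lib.MP_950c68_ag.F2.AS

/-!
# Isolation of the elements whose order has a given set of prime factors
-/

set_option autoImplicit false

open Finset

namespace Fermat950

theorem stk_mul' (N p n t s : ℕ) (x : ZMod N) :
    stk N p n (t * s) x = stk N p n t ((s : ZMod N) * x) := by
  unfold stk
  have h : ∀ i, ((p ^ i * (t * s) : ℕ) : ZMod N) * x = ((p ^ i * t : ℕ) : ZMod N) * (s * x) := by
    intro i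
    push_cast
    ring
  simp only [h]

theorem stk_frob {N p n : ℕ} (hpn : (p : ZMod N) ^ n = 1) (t : ℕ) (y : ZMod N) :
    stk N p n t ((p : ZMod N) * y) = stk N p n t y := by
  unfold stk
  have h : ∀ i, ((p ^ i * t : ℕ) : ZMod N) * ((p : ZMod N) * y) =
      ((p ^ (i + 1) * t : ℕ) : ZMod N) * y := by
    intro i
    push_cast
    ring
  simp only [h]
  have h2 := Finset.sum_range_succ (fun i => ((((p ^ i * t : ℕ) : ZMod N) * y).val : ℤ)) n
  have h3 := Finset.sum_range_succ' (fun i => ((((p ^ i * t : ℕ) : ZMod N) * y).val : ℤ)) n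
  rw [h2] at h3
  have h4 : ((p ^ n * t : ℕ) : ZMod N) = ((p ^ 0 * t : ℕ) : ZMod N) := by
    push_cast
    rw [hpn, pow_zero]
  rw [h4] at h3
  rw [add_right_cancel h3]

theorem stk_frob_pow {N p n : ℕ} (hpn : (p : ZMod N) ^ n = 1) (t j : ℕ) (y : ZMod N) :
    stk N p n t ((p : ZMod N) ^ j * y) = stk N p n t y := by
  induction j with
  | zero => rw [pow_zero, one_mul]
  | succ j ih => rw [pow_succ', mul_assoc, stk_frob hpn, ih]

theorem stk_neg2 {N : ℕ} [NeZero N] {p n t : ℕ} (hp : Nat.Coprime p N) (ht : Nat.Coprime t N)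
    {y : ZMod N} (hy : y ≠ 0) : stk N p n t (-y) = -stk N p n t y := by
  obtain ⟨t', ht'⟩ : ∃ t' : ℕ, (t' : ZMod N) = -(t : ZMod N) :=
    ⟨(-(t : ZMod N)).val, ZMod.natCast_zmod_val _⟩
  rw [← stk_neg hp ht ht' hy]
  unfold stk
  have h : ∀ i, ((p ^ i * t : ℕ) : ZMod N) * (-y) = ((p ^ i * t' : ℕ) : ZMod N) * y := by
    intro i
    rw [Nat.cast_mul, Nat.cast_mul, ht']
    ring
  simp only [h]

theorem mul_self_of_modEq {N : ℕ} {x : ZMod N} {M s : ℕ} (hx : addOrderOf x ∣ M)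
    (hs : s ≡ 1 [MOD M]) : (s : ZMod N) * x = x := by
  rw [← nsmul_eq_mul]
  have h1 : s • x = 1 • x := nsmul_eq_nsmul_iff_modEq.2 (hs.of_dvd hx)
  rw [h1, one_smul]

/-- a unit which fixes the elements of order dividing `M` and moves `x` to `-x` up to `<p>` -/
theorem exists_flip {N : ℕ} [NeZero N] {p : ℕ} (hp : Nat.Coprime p N) {M : ℕ} (hMN : M ∣ N)
    (hMAS : AlmostSS p M) {x : ZMod N} (hx : AlmostSS p (addOrderOf x))
    (hT : (addOrderOf x).primeFactors ≠ M.primeFactors) :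
    ∃ (s : (ZMod N)ˣ) (j : ℕ), ZMod.unitsMap hMN s = 1 ∧
      (p : ZMod N) ^ j * ((s : ZMod N) * x) = -x := by
  have hN0 : N ≠ 0 := NeZero.ne N
  have hM0 : M ≠ 0 := fun h => hN0 (Nat.eq_zero_of_zero_dvd (h ▸ hMN))
  set d := addOrderOf x with hd
  have hdN : d ∣ N := by
    have := addOrderOf_dvd_card (x := x)
    rwa [ZMod.card] at this
  have hd0 : d ≠ 0 := (addOrderOf_pos x).ne'
  obtain ⟨j, hj⟩ := hx.gcd hMAS hd0 hM0 hT
  have hpd : Nat.Coprime (p ^ j) d := (hp.coprime_dvd_right hdN).pow_left j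
  -- the inverse of -p^j modulo d
  obtain ⟨c, hc⟩ : ∃ c : ℕ, d ∣ p ^ j * c + 1 := by
    have : NeZero d := ⟨hd0⟩
    refine ⟨(-((ZMod.unitOfCoprime _ hpd)⁻¹ : (ZMod d)ˣ) : ZMod d).val, ?_⟩
    rw [← ZMod.natCast_eq_zero_iff]
    push_cast
    rw [ZMod.natCast_zmod_val, mul_neg]
    have h1 : ((ZMod.unitOfCoprime (p ^ j) hpd : (ZMod d)ˣ) : ZMod d) = (p : ZMod d) ^ j := by
      rw [ZMod.coe_unitOfCoprime, Nat.cast_pow]
    rw [← h1, Units.mul_inv, neg_add_cancel]
  have hgd : Nat.gcd d M ∣ d := Nat.gcd_dvd_left d M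
  have hc1 : c ≡ 1 [MOD Nat.gcd d M] := by
    have h1 : Nat.gcd d M ∣ p ^ j * c + 1 := hgd.trans hc
    have h2 : p ^ j * c + 1 ≡ p ^ j * 1 + 1 [MOD Nat.gcd d M] := by
      rw [mul_one]
      exact ((Nat.modEq_zero_iff_dvd).2 h1).trans ((Nat.modEq_zero_iff_dvd).2 hj).symm
    have h3 := Nat.ModEq.add_right_cancel' 1 h2
    exact Nat.ModEq.cancel_left_of_coprime
      (Nat.coprime_comm.1 (hpd.coprime_dvd_right hgd)) h3
  obtain ⟨s1, hs1, hs2⟩ := Nat.chineseRemainder' hc1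
  -- s1 ≡ c mod d, s1 ≡ 1 mod M
  have hs1d : d ∣ p ^ j * s1 + 1 := by
    rw [← Nat.modEq_zero_iff_dvd] at hc ⊢
    exact ((hs1.mul_left (p ^ j)).add_right 1).trans hc
  set E := Nat.lcm d M with hE
  have hEN : E ∣ N := Nat.lcm_dvd hdN hMN
  have hE0 : E ≠ 0 := Nat.lcm_ne_zero hd0 hM0
  have hcopd : Nat.Coprime s1 d := by
    rw [Nat.coprime_iff_gcd_eq_one, ← Nat.dvd_one]
    have h1 : Nat.gcd s1 d ∣ p ^ j * s1 + 1 := (Nat.gcd_dvd_right _ _).trans hs1d
    exact (Nat.dvd_add_right ((Nat.gcd_dvd_left s1 d).mul_left (p ^ j))).1 h1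
  have hcopM : Nat.Coprime s1 M := by
    unfold Nat.Coprime
    rw [hs2.gcd_eq, Nat.gcd_one_left]
  have hcopE : Nat.Coprime s1 E :=
    (hcopd.mul_right hcopM).coprime_dvd_right (Nat.lcm_dvd_mul d M)
  have : NeZero E := ⟨hE0⟩
  obtain ⟨s, hs⟩ := ZMod.unitsMap_surjective hEN (ZMod.unitOfCoprime s1 hcopE)
  have hsval : (s : ZMod N).val ≡ s1 [MOD E] := by
    have h1 := congrArg (fun u : (ZMod E)ˣ => (u : ZMod E)) hs
    simp only [ZMod.unitsMap_val, ZMod.coe_unitOfCoprime] at h1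
    rw [← ZMod.natCast_eq_natCast_iff, ← h1]
    exact ZMod.natCast_val _
  refine ⟨s, j, ?_, ?_⟩
  · have h1 : (s : ZMod N).val ≡ 1 [MOD M] := (hsval.of_dvd (Nat.dvd_lcm_right d M)).trans hs2
    apply Units.ext
    rw [ZMod.unitsMap_val, Units.val_one]
    have h2 := (ZMod.natCast_eq_natCast_iff _ _ _).2 h1
    rw [Nat.cast_one] at h2
    rw [← h2]
    exact (ZMod.natCast_val _).symm
  · have h1 : (s : ZMod N).val ≡ s1 [MOD d] := hsval.of_dvd (Nat.dvd_lcm_left d M)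
    have h2 : d ∣ p ^ j * (s : ZMod N).val + 1 := by
      rw [← Nat.modEq_zero_iff_dvd] at hs1d ⊢
      exact ((h1.mul_left (p ^ j)).add_right 1).trans hs1d
    have h3 : (p ^ j * (s : ZMod N).val + 1) • x = 0 := addOrderOf_dvd_iff_nsmul_eq_zero.1 h2
    rw [nsmul_eq_mul] at h3
    push_cast at h3
    rw [ZMod.natCast_zmod_val] at h3
    rw [eq_neg_iff_add_eq_zero]
    rw [← h3]
    ring

theorem sum_sum_comm {α β : Type} (K : Finset α) (c : Multiset β) (g : α → β → ℤ) :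
    ∑ s ∈ K, (c.map (g s)).sum = (c.map fun x => ∑ s ∈ K, g s x).sum := by
  induction c using Multiset.induction_on with
  | empty => simp
  | cons x c ih => simp [Finset.sum_add_distrib, ih]

/-- the elements with orders dividing `M` and all the others are separated by the Stickelberger
sums -/
theorem isolate {N : ℕ} [NeZero N] {p n : ℕ} (hp : Nat.Coprime p N)
    (hpn : (p : ZMod N) ^ n = 1) {M : ℕ} (hMN : M ∣ N) (hMAS : AlmostSS p M)
    (a b : Multiset (ZMod N)) (ha : ∀ x ∈ a, addOrderOf x ∣ M)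
    (hb : ∀ x ∈ b, x ≠ 0 ∧ AlmostSS p (addOrderOf x) ∧
      (addOrderOf x).primeFactors ≠ M.primeFactors)
    (hst : ∀ t : ℕ, Nat.Coprime t N → ((a + b).map (stk N p n t)).sum = 0) (t : ℕ)
    (ht : Nat.Coprime t N) : (a.map (stk N p n t)).sum = 0 := by
  classical
  let K : Finset (ZMod N)ˣ := univ.filter (fun s => ZMod.unitsMap hMN s = 1)
  have hK : ∀ s, s ∈ K ↔ ZMod.unitsMap hMN s = 1 := fun s => by simp [K]
  have h1K : (1 : (ZMod N)ˣ) ∈ K := (hK 1).2 (map_one _)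
  have hcop : ∀ s : (ZMod N)ˣ, Nat.Coprime (t * (s : ZMod N).val) N := fun s =>
    ht.mul_left (ZMod.val_coe_unit_coprime s)
  -- the sum over K
  have hsum : ∑ s ∈ K, ((a + b).map (stk N p n (t * (s : ZMod N).val))).sum = 0 :=
    Finset.sum_eq_zero fun s _ => hst _ (hcop s)
  rw [sum_sum_comm, Multiset.map_add, Multiset.sum_add] at hsum
  have hbz : (b.map fun x => ∑ s ∈ K, stk N p n (t * (s : ZMod N).val) x).sum = 0 := by
    refine Multiset.sum_eq_zero fun y hy => ?_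
    obtain ⟨x, hx, rfl⟩ := Multiset.mem_map.1 hy
    obtain ⟨hx0, hxAS, hxT⟩ := hb x hx
    obtain ⟨s0, j, hs0, hj⟩ := exists_flip hp hMN hMAS hxAS hxT
    have e1 : ∑ s ∈ K, stk N p n (t * (s : ZMod N).val) x =
        ∑ s ∈ K, stk N p n (t * ((s * s0 : (ZMod N)ˣ) : ZMod N).val) x := by
      symm
      refine Finset.sum_equiv (Equiv.mulRight s0) (fun s => ?_) (fun s _ => rfl)
      rw [hK, hK, Equiv.coe_mulRight, map_mul, hs0, mul_one]
    have e2 : ∀ s : (ZMod N)ˣ, stk N p n (t * ((s * s0 : (ZMod N)ˣ) : ZMod N).val) x =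
        -stk N p n (t * (s : ZMod N).val) x := by
      intro s
      rw [stk_mul', stk_mul', ZMod.natCast_zmod_val, ZMod.natCast_zmod_val, Units.val_mul]
      have hsx : (s : ZMod N) * x ≠ 0 := fun h => hx0 (by simpa using h)
      rw [← stk_neg2 hp ht hsx, ← stk_frob_pow hpn t j (_ * x)]
      congr 1
      rw [← mul_neg, ← hj]
      ring
    rw [Finset.sum_congr rfl fun s _ => e2 s, Finset.sum_neg_distrib] at e1
    linarith
  have haz : (a.map fun x => ∑ s ∈ K, stk N p n (t * (s : ZMod N).val) x).sum =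
      K.card * (a.map (stk N p n t)).sum := by
    rw [← Multiset.sum_map_mul_left]
    congr 1
    refine Multiset.map_congr rfl fun x hx => ?_
    have e1 : ∀ s ∈ K, stk N p n (t * (s : ZMod N).val) x = stk N p n t x := by
      intro s hs
      rw [stk_mul']
      congr 1
      refine mul_self_of_modEq (ha x hx) ?_
      have h1 := congrArg (fun u : (ZMod M)ˣ => (u : ZMod M)) ((hK s).1 hs)
      simp only [ZMod.unitsMap_val, Units.val_one] at h1
      rw [← ZMod.natCast_eq_natCast_iff, Nat.cast_one, ← h1]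
      exact ZMod.natCast_val _
    rw [Finset.sum_congr rfl e1, Finset.sum_const, nsmul_eq_mul]
  rw [hbz, haz, add_zero] at hsum
  rcases mul_eq_zero.1 hsum with h | h
  · have : K.card = 0 := by exact_mod_cast h
    rw [Finset.card_eq_zero] at this
    rw [this] at h1K
    exact absurd h1K (Finset.notMem_empty _)
  · exact h

end Fermat950
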