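import Mathlib
import Pool.Agent.Lib.MP_950c68_ag.F2.Core

/-!
# Reduction to elements of prime power order
-/

set_option autoImplicit false

open Finset

namespace Fermat950

theorem primePow_of_smul {N : ℕ} {y : ZMod N} (hy : y ≠ 0) {q j : ℕ} (hq : q.Prime)
    (h : (q ^ j) • y = 0) : IsPrimePow (addOrderOf y) := by
  have h1 : addOrderOf y ∣ q ^ j := addOrderOf_dvd_iff_nsmul_eq_zero.2 h
  obtain ⟨i, _, hi⟩ := (Nat.dvd_prime_pow hq).1 h1
  rw [hi]
  refine hq.isPrimePow.pow ?_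
  rintro rfl
  rw [pow_zero, AddMonoid.addOrderOf_eq_one_iff] at hi
  exact hy hi

theorem dup_val {N : ℕ} [NeZero N] (h2 : 2 ∣ N) (z : ZMod N) :
    z.val + (z + ((N / 2 : ℕ) : ZMod N)).val = (2 * z).val + N / 2 := by
  obtain ⟨r, hr⟩ := h2
  have hpos : 0 < N := NeZero.pos N
  have hv : z.val < N := ZMod.val_lt z
  have hN2 : N / 2 = r := by omega
  have h3 : ((N / 2 : ℕ) : ZMod N).val = r := by
    rw [hN2, ZMod.val_natCast, Nat.mod_eq_of_lt (by omega)]
  rw [two_mul, ZMod.val_add, ZMod.val_add, h3, hN2]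
  rcases Nat.lt_or_ge z.val r with h | h
  · rw [Nat.mod_eq_of_lt (by omega : z.val + r < N), Nat.mod_eq_of_lt (by omega : z.val + z.val < N)]
    omega
  · have e1 : (z.val + r) % N = z.val + r - N := by
      rw [Nat.mod_eq_sub_mod (by omega), Nat.mod_eq_of_lt (by omega)]
    have e2 : (z.val + z.val) % N = z.val + z.val - N := by
      rw [Nat.mod_eq_sub_mod (by omega), Nat.mod_eq_of_lt (by omega)]
    rw [e1, e2]
    omega

theorem eq_half {N : ℕ} [NeZero N] {y : ZMod N} (hy : y ≠ 0) (h : 2 * y = 0) :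
    2 ∣ N ∧ y = ((N / 2 : ℕ) : ZMod N) := by
  have hpos : 0 < N := NeZero.pos N
  have hv : y.val < N := ZMod.val_lt y
  have hv0 : y.val ≠ 0 := fun h0 => hy ((ZMod.val_eq_zero y).1 h0)
  have h1 : N ∣ 2 * y.val := by
    rw [← ZMod.natCast_eq_zero_iff]
    push_cast
    rw [ZMod.natCast_zmod_val, h]
  obtain ⟨c, hc⟩ := h1
  have hc1 : c = 1 := by
    rcases Nat.lt_or_ge c 2 with h2 | h2
    · rcases Nat.eq_zero_or_pos c with h3 | h3
      · rw [h3, mul_zero] at hc; omega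
      · omega
    · have := Nat.mul_le_mul_left N h2
      omega
  rw [hc1, mul_one] at hc
  refine ⟨⟨y.val, hc.symm⟩, ?_⟩
  have h3 : N / 2 = y.val := by omega
  rw [h3, ZMod.natCast_zmod_val]

section
variable {k : Type} [Field k] [Fintype k] {N : ℕ} [NeZero N] {χ : MulChar k ℂ} {ψ : AddChar k ℂ}

/-- `x` is represented by the multiset `ρ` of elements of prime power order -/
structure IsRep (χ : MulChar k ℂ) (ψ : AddChar k ℂ) (p n : ℕ)
    (τ : (ZMod N → ℤ) ⧸ (relS χ ψ)) (x : ZMod N) (ρ : Multiset (ZMod N)) : Prop where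
  zero : 0 ∉ ρ
  sum : ρ.sum = x
  pp : ∀ y ∈ ρ, IsPrimePow (addOrderOf y)
  cl : (ρ.map (cls χ ψ)).sum = cls χ ψ x + (Multiset.card ρ + 1) • τ
  st : ∀ t : ℕ, Nat.Coprime t N → (ρ.map (stk N p n t)).sum = stk N p n t x

/-- the Stickelberger sums of a pure multiset vanish -/
theorem stk_of_pure (hχ : orderOf χ = N) (hψ : ψ ≠ 1) (p n : ℕ) [Fact p.Prime]
    [Algebra (ZMod p) k] (hn : 0 < n) (hq : Fintype.card k = p ^ n) (hmq : N ∣ p ^ n - 1)
    (a : Multiset (ZMod N)) (ha : Pure χ ψ a) (t : ℕ) (ht : Nat.Coprime t N) :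
    (a.map (stk N p n t)).sum = 0 := by
  have h1 := stick_sum (NeZero.pos N) p n hn k hq hmq χ hχ ψ hψ a ha (ZMod.unitOfCoprime t ht)
  have h2 : ((a.map (stk N p n t)).sum : ℤ) =
      2 * ∑ i ∈ range n, ((a.map fun x => ((p : ZMod N) ^ i *
        (((ZMod.unitOfCoprime t ht : (ZMod N)ˣ) : ZMod N) * x)).val).sum : ℤ) -
        N * n * Multiset.card a := by
    clear h1 ha
    induction a using Multiset.induction_on with
    | empty => simp
    | cons x b ih =>
      rw [Multiset.map_cons, Multiset.sum_cons, ih]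
      simp only [Multiset.map_cons, Multiset.sum_cons, Multiset.card_cons]
      unfold stk
      have h3 : ∀ i, (((p ^ i * t : ℕ) : ZMod N) * x).val =
          ((p : ZMod N) ^ i * (((ZMod.unitOfCoprime t ht : (ZMod N)ˣ) : ZMod N) * x)).val := by
        intro i
        congr 1
        rw [ZMod.coe_unitOfCoprime]
        push_cast
        ring
      simp only [h3]
      push_cast
      rw [Finset.sum_add_distrib]
      ring
  rw [h2]
  have h3 : (2 * ∑ i ∈ range n, ((a.map fun x => ((p : ZMod N) ^ i *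
        (((ZMod.unitOfCoprime t ht : (ZMod N)ˣ) : ZMod N) * x)).val).sum : ℤ)) =
      N * n * Multiset.card a := by exact_mod_cast h1
  rw [h3, sub_self]

theorem rep_self (p n : ℕ) (τ : (ZMod N → ℤ) ⧸ (relS χ ψ)) (hτ : τ + τ = 0) {x : ZMod N}
    (hx : x ≠ 0) (hpp : IsPrimePow (addOrderOf x)) : IsRep χ ψ p n τ x {x} where
  zero := by simp [hx.symm]
  sum := by simp
  pp := fun y hy => by rw [Multiset.mem_singleton.1 hy]; exact hpp
  cl := by
    rw [Multiset.map_singleton, Multiset.sum_singleton, Multiset.card_singleton]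
    have : (1 + 1) • τ = 0 := by rw [add_smul, one_smul, hτ]
    rw [this, add_zero]
  st := fun t _ => by simp

/-- supersingular elements -/
theorem rep_ss (hχ : orderOf χ = N) (hψ : ψ ≠ 1) (p n : ℕ) [Fact p.Prime] [CharP k p]
    [Algebra (ZMod p) k] (hn : 0 < n) (hq : Fintype.card k = p ^ n) (hmq : N ∣ p ^ n - 1)
    (τ : (ZMod N → ℤ) ⧸ (relS χ ψ)) (hτ : τ + τ = 0)
    (htri : ∀ x y z : ZMod N, x ≠ 0 → y ≠ 0 → z ≠ 0 → x + y + z = 0 → Pure χ ψ {x, y, z} →
      cls χ ψ x + cls χ ψ y + cls χ ψ z = τ)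
    (i : ℕ) (x : ZMod N) (hx : x ≠ 0) (hi : (p : ZMod N) ^ i * x = -x) :
    ∃ ρ, IsRep χ ψ p n τ x ρ := by
  classical
  have hst0 : ∀ y : ZMod N, y ≠ 0 → (p : ZMod N) ^ i * y = -y → ∀ t : ℕ, Nat.Coprime t N →
      stk N p n t y = 0 := by
    intro y hy hiy t ht
    have h1 := stk_of_pure hχ hψ p n hn hq hmq {y} (pure_single' hχ hψ p i hiy hy) t ht
    simpa using h1
  induction hd : addOrderOf x using Nat.strong_induction_on generalizing x with
  | _ d ih =>
  by_cases hpp : IsPrimePow d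
  · exact ⟨{x}, rep_self p n τ hτ hx (hd ▸ hpp)⟩
  -- coprime factorization
  have hdpos : 0 < d := by
    rw [← hd]; exact addOrderOf_pos x
  have hd1 : d ≠ 1 := by
    intro h1
    rw [h1, AddMonoid.addOrderOf_eq_one_iff] at hd
    exact hx hd
  have hqp : (d.minFac).Prime := Nat.minFac_prime hd1
  set q := d.minFac with hqdef
  have hqd : q ∣ d := Nat.minFac_dvd d
  set d1 := q ^ d.factorization q with hd1def
  set d2 := d / d1 with hd2def
  have hd12 : d1 * d2 = d := Nat.mul_div_cancel' (Nat.ordProj_dvd d q)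
  have hcop : Nat.Coprime d1 d2 := (Nat.coprime_ordCompl hqp hdpos.ne').pow_left _
  have hf : 0 < d.factorization q := hqp.factorization_pos_of_dvd hdpos.ne' hqd
  have h1d1 : 1 < d1 := Nat.one_lt_pow hf.ne' hqp.one_lt
  have hd2pos : 0 < d2 := by
    rcases Nat.eq_zero_or_pos d2 with h | h
    · rw [h, mul_zero] at hd12; omega
    · exact h
  have h1d2 : 1 < d2 := by
    rcases Nat.lt_or_ge 1 d2 with h | h
    · exact h
    · exfalso
      have : d2 = 1 := by omega
      rw [this, mul_one] at hd12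
      apply hpp
      rw [← hd12, hd1def]
      exact hqp.isPrimePow.pow hf.ne'
  obtain ⟨A, hA1, hA2⟩ := Nat.chineseRemainder hcop 1 0
  obtain ⟨B, hB1, hB2⟩ := Nat.chineseRemainder hcop 0 1
  have hd2A : d2 ∣ A := (Nat.modEq_zero_iff_dvd).1 hA2
  have hd1B : d1 ∣ B := (Nat.modEq_zero_iff_dvd).1 hB1
  have hAB : A + B ≡ 1 [MOD d] := by
    rw [← hd12]
    refine (Nat.modEq_and_modEq_iff_modEq_mul hcop).1 ⟨?_, ?_⟩
    · have := hA1.add hB1
      simpa using this
    · have := hA2.add hB2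
      simpa using this
  have hdvd : ∀ C : ℕ, d ∣ C → C • x = 0 := fun C hC =>
    addOrderOf_dvd_iff_nsmul_eq_zero.1 (hd ▸ hC)
  have hx1 : d1 • (A • x) = 0 := by
    rw [← mul_smul]
    exact hdvd _ (by rw [← hd12]; exact Nat.mul_dvd_mul_left d1 hd2A)
  have hx2 : d2 • (B • x) = 0 := by
    rw [← mul_smul]
    refine hdvd _ ?_
    rw [← hd12, mul_comm d1 d2]
    exact Nat.mul_dvd_mul_left d2 hd1B
  have hx10 : A • x ≠ 0 := by
    intro h0
    have h1 : d ∣ A := hd ▸ addOrderOf_dvd_iff_nsmul_eq_zero.2 h0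
    have h2 : d1 ∣ A := (Dvd.intro d2 hd12).trans h1
    have h3 : 1 ≡ 0 [MOD d1] := hA1.symm.trans ((Nat.modEq_zero_iff_dvd).2 h2)
    have h4 := (Nat.modEq_zero_iff_dvd).1 h3
    have := Nat.le_of_dvd one_pos h4
    omega
  have hx20 : B • x ≠ 0 := by
    intro h0
    have h1 : d ∣ B := hd ▸ addOrderOf_dvd_iff_nsmul_eq_zero.2 h0
    have h2 : d2 ∣ B := (Dvd.intro_left d1 hd12).trans h1
    have h3 : 1 ≡ 0 [MOD d2] := hB2.symm.trans ((Nat.modEq_zero_iff_dvd).2 h2)
    have h4 := (Nat.modEq_zero_iff_dvd).1 h3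
    have := Nat.le_of_dvd one_pos h4
    omega
  have hsumx : A • x + B • x = x := by
    rw [← add_smul]
    have h1 : (A + B) • x = 1 • x := by
      have := (AddSubgroup.zmultiples x)
      rw [nsmul_eq_nsmul_iff_modEq, hd]
      exact hAB
    rw [h1, one_smul]
  have hss1 : (p : ZMod N) ^ i * (A • x) = -(A • x) := by
    rw [mul_smul_comm, hi, smul_neg]
  have hss2 : (p : ZMod N) ^ i * (B • x) = -(B • x) := by
    rw [mul_smul_comm, hi, smul_neg]
  have hlt1 : addOrderOf (A • x) < d := by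
    have h1 : addOrderOf (A • x) ∣ d1 := addOrderOf_dvd_iff_nsmul_eq_zero.2 hx1
    have h2 := Nat.le_of_dvd (by omega) h1
    have h3 : d1 * 1 < d1 * d2 := Nat.mul_lt_mul_of_pos_left h1d2 (by omega)
    rw [hd12] at h3
    omega
  have hlt2 : addOrderOf (B • x) < d := by
    have h1 : addOrderOf (B • x) ∣ d2 := addOrderOf_dvd_iff_nsmul_eq_zero.2 hx2
    have h2 := Nat.le_of_dvd (by omega) h1
    have h3 : d2 * 1 < d2 * d1 := Nat.mul_lt_mul_of_pos_left h1d1 hd2pos
    rw [mul_comm d2 d1, hd12] at h3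
    omega
  obtain ⟨ρ1, r1⟩ := ih _ hlt1 (A • x) hx10 hss1 rfl
  obtain ⟨ρ2, r2⟩ := ih _ hlt2 (B • x) hx20 hss2 rfl
  refine ⟨ρ1 + ρ2, ?_, ?_, ?_, ?_, ?_⟩
  · rw [Multiset.mem_add, not_or]
    exact ⟨r1.zero, r2.zero⟩
  · rw [Multiset.sum_add, r1.sum, r2.sum, hsumx]
  · intro y hy
    rcases Multiset.mem_add.1 hy with h | h
    · exact r1.pp y h
    · exact r2.pp y h
  · rw [Multiset.map_add, Multiset.sum_add, r1.cl, r2.cl, Multiset.card_add]
    have h1 := htri x (-(A • x)) (-(B • x)) hx (neg_ne_zero.2 hx10) (neg_ne_zero.2 hx20)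
      (by
        nth_rewrite 1 [← hsumx]
        abel)
      (pure_triple (pure_single' hχ hψ p i hi hx)
        (pure_single' hχ hψ p i (by rw [mul_neg, hss1]) (neg_ne_zero.2 hx10))
        (pure_single' hχ hψ p i (by rw [mul_neg, hss2]) (neg_ne_zero.2 hx20)))
    rw [cls_neg, cls_neg] at h1
    have h2 : cls χ ψ (A • x) + cls χ ψ (B • x) = cls χ ψ x + τ := by
      have h3 : cls χ ψ x = τ + cls χ ψ (A • x) + cls χ ψ (B • x) := by rw [← h1]; abel
      rw [h3]
      calc cls χ ψ (A • x) + cls χ ψ (B • x) = (τ + τ) + cls χ ψ (A • x) + cls χ ψ (B • x) := by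
            rw [hτ, zero_add]
        _ = _ := by abel
    have h4 : cls χ ψ (A • x) + (Multiset.card ρ1 + 1) • τ +
        (cls χ ψ (B • x) + (Multiset.card ρ2 + 1) • τ) =
        (cls χ ψ (A • x) + cls χ ψ (B • x)) +
          ((Multiset.card ρ1 + 1) • τ + (Multiset.card ρ2 + 1) • τ) := by abel
    rw [h4, h2, add_smul, add_smul, one_smul, add_smul, add_smul, one_smul]
    have h5 : cls χ ψ x + τ + (Multiset.card ρ1 • τ + τ + (Multiset.card ρ2 • τ + τ)) =
        cls χ ψ x + (Multiset.card ρ1 • τ + Multiset.card ρ2 • τ + τ) + (τ + τ) := by abel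
    rw [h5, hτ, add_zero]
  · intro t ht
    rw [Multiset.map_add, Multiset.sum_add, r1.st t ht, r2.st t ht, hst0 _ hx10 hss1 t ht,
      hst0 _ hx20 hss2 t ht, hst0 x hx hi t ht, add_zero]

end

end Fermat950
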