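import Mathlib
import Pool.Agent.Lib.MP_950c68_ag.F2.Rep

/-!
# Equivalence of multisets
-/

set_option autoImplicit false

open Finset

namespace Fermat950

section
variable {k : Type} [Field k] [Fintype k] {N : ℕ} [NeZero N] {χ : MulChar k ℂ} {ψ : AddChar k ℂ}

/-- `a` may be replaced by `ρ` -/
structure RepE (χ : MulChar k ℂ) (ψ : AddChar k ℂ) (p n : ℕ)
    (τ : (ZMod N → ℤ) ⧸ (relS χ ψ)) (a ρ : Multiset (ZMod N)) : Prop where
  zero : 0 ∉ ρ
  sum : ρ.sum = a.sum
  cl : (ρ.map (cls χ ψ)).sum = (a.map (cls χ ψ)).sum + (Multiset.card ρ + Multiset.card a) • τ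
  st : ∀ t : ℕ, Nat.Coprime t N → (ρ.map (stk N p n t)).sum = (a.map (stk N p n t)).sum

omit [NeZero N] in
theorem RepE.refl (p n : ℕ) (τ : (ZMod N → ℤ) ⧸ (relS χ ψ)) (hτ : τ + τ = 0)
    {a : Multiset (ZMod N)} (h0 : 0 ∉ a) : RepE χ ψ p n τ a a where
  zero := h0
  sum := rfl
  cl := by rw [add_smul, ← smul_add, hτ, smul_zero, add_zero]
  st := fun _ _ => rfl

omit [NeZero N] in
theorem RepE.add {p n : ℕ} {τ : (ZMod N → ℤ) ⧸ (relS χ ψ)} {a a' ρ ρ' : Multiset (ZMod N)}
    (h : RepE χ ψ p n τ a ρ) (h' : RepE χ ψ p n τ a' ρ') :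
    RepE χ ψ p n τ (a + a') (ρ + ρ') where
  zero := by
    rw [Multiset.mem_add, not_or]
    exact ⟨h.zero, h'.zero⟩
  sum := by rw [Multiset.sum_add, Multiset.sum_add, h.sum, h'.sum]
  cl := by
    rw [Multiset.map_add, Multiset.sum_add, h.cl, h'.cl, Multiset.map_add, Multiset.sum_add,
      Multiset.card_add, Multiset.card_add]
    simp only [add_smul]
    abel
  st := fun t ht => by
    rw [Multiset.map_add, Multiset.sum_add, h.st t ht, h'.st t ht, Multiset.map_add,
      Multiset.sum_add]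

omit [NeZero N] in
theorem RepE.trans {p n : ℕ} {τ : (ZMod N → ℤ) ⧸ (relS χ ψ)} (hτ : τ + τ = 0)
    {a b ρ : Multiset (ZMod N)} (h : RepE χ ψ p n τ a b) (h' : RepE χ ψ p n τ b ρ) :
    RepE χ ψ p n τ a ρ where
  zero := h'.zero
  sum := h'.sum.trans h.sum
  cl := by
    rw [h'.cl, h.cl, add_smul, add_smul, add_smul]
    have h1 : Multiset.card b • τ + Multiset.card b • τ = 0 := by rw [← nsmul_add, hτ, nsmul_zero]
    calc (a.map (cls χ ψ)).sum + (Multiset.card b • τ + Multiset.card a • τ) +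
          (Multiset.card ρ • τ + Multiset.card b • τ)
        = (a.map (cls χ ψ)).sum + (Multiset.card ρ • τ + Multiset.card a • τ) +
          (Multiset.card b • τ + Multiset.card b • τ) := by abel
      _ = _ := by rw [h1, add_zero]
  st := fun t ht => (h'.st t ht).trans (h.st t ht)

omit [NeZero N] in
theorem IsRep.repE {p n : ℕ} {τ : (ZMod N → ℤ) ⧸ (relS χ ψ)} {x : ZMod N}
    {ρ : Multiset (ZMod N)} (h : IsRep χ ψ p n τ x ρ) : RepE χ ψ p n τ {x} ρ where
  zero := h.zero
  sum := by rw [h.sum, Multiset.sum_singleton]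
  cl := by rw [h.cl, Multiset.map_singleton, Multiset.sum_singleton, Multiset.card_singleton]
  st := fun t ht => by rw [h.st t ht, Multiset.map_singleton, Multiset.sum_singleton]

omit [NeZero N] in
/-- an additive version -/
theorem repE_multiset {p n : ℕ} {τ : (ZMod N → ℤ) ⧸ (relS χ ψ)}
    (Q : ZMod N → Prop) (a : Multiset (ZMod N))
    (h : ∀ x ∈ a, ∃ ρ, RepE χ ψ p n τ {x} ρ ∧ ∀ y ∈ ρ, Q y) :
    ∃ ρ, RepE χ ψ p n τ a ρ ∧ ∀ y ∈ ρ, Q y := by
  induction a using Multiset.induction_on with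
  | empty => exact ⟨0, ⟨by simp, by simp, by simp, by simp⟩, by simp⟩
  | cons x a ih =>
    obtain ⟨ρ, h1, h2⟩ := ih fun y hy => h y (Multiset.mem_cons_of_mem hy)
    obtain ⟨ρ', h3, h4⟩ := h x (Multiset.mem_cons_self x a)
    refine ⟨ρ' + ρ, ?_, ?_⟩
    · rw [← Multiset.singleton_add]
      exact h3.add h1
    · intro y hy
      rcases Multiset.mem_add.1 hy with h5 | h5
      · exact h4 y h5
      · exact h2 y h5

/-- elements of order twice an odd number -/
theorem rep_double (p n : ℕ) (hp : Nat.Coprime p N) (τ : (ZMod N → ℤ) ⧸ (relS χ ψ))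
    (hτ : τ + τ = 0) {x : ZMod N} (hx : x ≠ 0) {d : ℕ} (hdodd : Odd d)
    (hord : addOrderOf x = 2 * d) : ∃ ρ, RepE χ ψ p n τ {x} ρ ∧
      ∀ y ∈ ρ, addOrderOf y ∣ d ∨ addOrderOf y ∣ 2 := by
  classical
  have h2dx : (2 * d) • x = 0 := by rw [← hord]; exact addOrderOf_nsmul_eq_zero x
  have hdx : d • x ≠ 0 := by
    intro h
    have h1 : addOrderOf x ∣ d := addOrderOf_dvd_iff_nsmul_eq_zero.2 h
    rw [hord] at h1
    have hdpos : 0 < d := hdodd.pos
    have := Nat.le_of_dvd hdpos h1
    omega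
  have h2 : 2 * (d • x) = 0 := by
    rw [← h2dx, mul_smul, two_smul, two_mul]
  obtain ⟨h2N, hh⟩ := eq_half hdx h2
  set h : ZMod N := ((N / 2 : ℕ) : ZMod N) with hhdef
  have hh0 : h ≠ 0 := hh ▸ hdx
  have hneg : -h = h := half_neg h2N
  have hhh : h + h = 0 := by
    nth_rewrite 1 [← hneg]; simp
  have hdh : d • h = h := by
    obtain ⟨r, hr⟩ := hdodd
    rw [hr, add_smul, one_smul, mul_comm, mul_smul, two_smul, hhh, smul_zero, zero_add]
  set c : ZMod N := x + h with hc
  have hdc : d • c = 0 := by rw [hc, smul_add, hh, hdh, hhh]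
  have hxc : x = c + h := by rw [hc, add_assoc, hhh, add_zero]
  by_cases hc0 : c = 0
  · refine ⟨{x}, RepE.refl p n τ hτ (by simpa using hx.symm), fun y hy => Or.inr ?_⟩
    rw [Multiset.mem_singleton.1 hy]
    rw [hc0, zero_add] at hxc
    rw [hxc]
    exact addOrderOf_dvd_iff_nsmul_eq_zero.2 (by rw [two_smul, hhh])
  have h2c0 : 2 * c ≠ 0 := by
    intro h0
    obtain ⟨r, hr⟩ := hdodd
    apply hc0
    have h3 : d • c = c := by
      rw [hr, add_smul, one_smul, mul_comm, mul_smul, two_smul, ← two_mul, h0, smul_zero, zero_add]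
    rw [← h3, hdc]
  have hclh : cls χ ψ h + cls χ ψ h = 0 := by
    nth_rewrite 1 [← hneg]; rw [cls_neg]; simp
  refine ⟨{-c, 2 * c, h}, ⟨?_, ?_, ?_, ?_⟩, ?_⟩
  · simp only [Multiset.insert_eq_cons, Multiset.mem_cons, Multiset.mem_singleton, not_or]
    exact ⟨(neg_ne_zero.2 hc0).symm, h2c0.symm, hh0.symm⟩
  · simp only [Multiset.insert_eq_cons, Multiset.sum_cons, Multiset.sum_singleton]
    rw [hxc]; ring
  · have h3 := cls_dist (χ := χ) (ψ := ψ) Nat.prime_two h2N c (by exact_mod_cast h2c0)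
    have h4 : ((Multiset.range 2).map
        (fun i : ℕ => c + (i : ZMod N) * ((N / 2 : ℕ) : ZMod N))) = {c + h, c} := by
      rw [Multiset.range_succ, Multiset.range_succ, Multiset.range_zero]
      simp [hhdef]
    rw [h4, if_pos rfl] at h3
    simp only [Multiset.insert_eq_cons, Multiset.map_cons, Multiset.map_singleton,
      Multiset.sum_cons, Multiset.sum_singleton, Multiset.card_cons, Multiset.card_singleton]
    have h5 : (1 + 1 + 1 + 1) • τ = 0 := by
      rw [add_smul, add_smul, add_smul, one_smul, hτ, zero_add, hτ]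
    have h6 : cls χ ψ (2 * c) = cls χ ψ (c + h) + cls χ ψ c + cls χ ψ h := by
      rw [← hhdef] at h3
      push_cast at h3
      rw [h3]
      simp
    rw [h5, add_zero, cls_neg, h6, ← hxc]
    calc -cls χ ψ c + (cls χ ψ x + cls χ ψ c + cls χ ψ h + cls χ ψ h)
        = cls χ ψ x + (cls χ ψ h + cls χ ψ h) := by abel
      _ = _ := by rw [hclh, add_zero]
  · intro t ht
    simp only [Multiset.insert_eq_cons, Multiset.map_cons, Multiset.map_singleton,
      Multiset.sum_cons, Multiset.sum_singleton]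
    unfold stk
    have hkey : ∀ i, ((((p ^ i * t : ℕ) : ZMod N) * -c).val : ℤ) +
        ((((p ^ i * t : ℕ) : ZMod N) * (2 * c)).val : ℤ) +
        ((((p ^ i * t : ℕ) : ZMod N) * h).val : ℤ) =
        ((((p ^ i * t : ℕ) : ZMod N) * x).val : ℤ) + N := by
      intro i
      have hco : Nat.Coprime (p ^ i * t) N := (hp.pow_left i).mul_left ht
      have hodd : Odd (p ^ i * t) := by
        rw [← Nat.not_even_iff_odd]
        intro hev
        have h7 : 2 ∣ Nat.gcd (p ^ i * t) N := Nat.dvd_gcd (even_iff_two_dvd.1 hev) h2N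
        rw [hco.gcd_eq_one] at h7
        omega
      set u : ZMod N := ((p ^ i * t : ℕ) : ZMod N) with hu
      have huh : u * h = h := by
        obtain ⟨r, hr⟩ := hodd
        rw [hu, hr]
        push_cast
        have : (2 * (r : ZMod N) + 1) * h = r * (h + h) + h := by ring
        rw [this, hhh, mul_zero, zero_add]
      have huu : IsUnit u := (ZMod.isUnit_iff_coprime _ _).2 hco
      have huc : u * c ≠ 0 := fun h0 => hc0 ((huu.mul_right_eq_zero).1 h0)
      have h8 := dup_val h2N (u * c)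
      have h9 : u * x = u * c + h := by rw [hxc, mul_add, huh]
      have h10 : u * (2 * c) = 2 * (u * c) := by ring
      have : NeZero (u * c) := ⟨huc⟩
      have h11 : (u * -c).val = N - (u * c).val := by
        rw [mul_neg, ZMod.val_neg_of_ne_zero]
      have h12 : h.val = N / 2 := by
        rw [hhdef, ZMod.val_natCast, Nat.mod_eq_of_lt]
        have := NeZero.pos N
        omega
      have hlt : (u * c).val < N := ZMod.val_lt _
      rw [huh, h9, h10, h11, h12, Nat.cast_sub hlt.le]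
      rw [← hhdef] at h8
      have h13 : ((u * c).val : ℤ) + ((u * c + h).val : ℤ) = ((2 * (u * c)).val : ℤ) + (N / 2 : ℕ) := by
        exact_mod_cast h8
      linarith
    have hsum := Finset.sum_congr (rfl : range n = range n) fun i _ => hkey i
    rw [Finset.sum_add_distrib, Finset.sum_add_distrib, Finset.sum_add_distrib, Finset.sum_const,
      card_range, nsmul_eq_mul] at hsum
    linarith
  · intro y hy
    simp only [Multiset.insert_eq_cons, Multiset.mem_cons, Multiset.mem_singleton] at hy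
    rcases hy with rfl | rfl | rfl
    · left
      refine addOrderOf_dvd_iff_nsmul_eq_zero.2 ?_
      rw [smul_neg, hdc, neg_zero]
    · left
      refine addOrderOf_dvd_iff_nsmul_eq_zero.2 ?_
      rw [two_mul, smul_add, hdc, add_zero]
    · right
      refine addOrderOf_dvd_iff_nsmul_eq_zero.2 ?_
      rw [two_smul, hhh]

end

end Fermat950
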