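import Mathlib
import Pool.Agent.Lib.MP_950c68_ag.F2.RepE
import Pool.Agent.Lib.MP_950c68_ag.F2.Iso
import Pool.Agent.Lib.MP_950c68_ag.F2.Gen3

/-!
# Elimination of the elements whose order is almost supersingular
-/

set_option autoImplicit false

open Finset

namespace Fermat950

theorem exists_coprime_split {N : ℕ} [NeZero N] {x : ZMod N} (hx : x ≠ 0)
    (hpp : ¬ IsPrimePow (addOrderOf x)) :
    ∃ A B : ℕ, A • x + B • x = x ∧ A • x ≠ 0 ∧ B • x ≠ 0 ∧
      addOrderOf (A • x) < addOrderOf x ∧ addOrderOf (B • x) < addOrderOf x := by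
  set d := addOrderOf x with hd
  have hdpos : 0 < d := addOrderOf_pos x
  have hd1 : d ≠ 1 := by
    intro h1
    rw [hd, AddMonoid.addOrderOf_eq_one_iff] at h1
    exact hx h1
  have hqp : (d.minFac).Prime := Nat.minFac_prime hd1
  set q := d.minFac with hqdef
  have hqd : q ∣ d := Nat.minFac_dvd d
  set d1 := q ^ d.factorization q with hd1def
  set d2 := d / d1 with hd2def
  have hd12 : d1 * d2 = d := Nat.mul_div_cancel' (Nat.ordProj_dvd d q)
  have hcop : Nat.Coprime d1 d2 := (Nat.coprime_ordCompl hqp hdpos.ne').pow_left _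
  have hf : 0 < d.factorization q := hqp.factorization_pos_of_dvd hdpos.ne' hqd
  have h1d1 : 1 < d1 := Nat.one_lt_pow hf.ne' hqp.one_lt
  have hd2pos : 0 < d2 := by
    rcases Nat.eq_zero_or_pos d2 with h | h
    · rw [h, mul_zero] at hd12; omega
    · exact h
  have h1d2 : 1 < d2 := by
    rcases Nat.lt_or_ge 1 d2 with h | h
    · exact h
    · exfalso
      have : d2 = 1 := by omega
      rw [this, mul_one] at hd12
      apply hpp
      rw [← hd12, hd1def]
      exact hqp.isPrimePow.pow hf.ne'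
  obtain ⟨A, hA1, hA2⟩ := Nat.chineseRemainder hcop 1 0
  obtain ⟨B, hB1, hB2⟩ := Nat.chineseRemainder hcop 0 1
  have hd2A : d2 ∣ A := (Nat.modEq_zero_iff_dvd).1 hA2
  have hd1B : d1 ∣ B := (Nat.modEq_zero_iff_dvd).1 hB1
  have hAB : A + B ≡ 1 [MOD d] := by
    rw [← hd12]
    refine (Nat.modEq_and_modEq_iff_modEq_mul hcop).1 ⟨?_, ?_⟩
    · have := hA1.add hB1
      simpa using this
    · have := hA2.add hB2
      simpa using this
  have hdvd : ∀ C : ℕ, d ∣ C → C • x = 0 := fun C hC =>
    addOrderOf_dvd_iff_nsmul_eq_zero.1 hC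
  have hx1 : d1 • (A • x) = 0 := by
    rw [← mul_smul]
    exact hdvd _ (by nth_rewrite 1 [← hd12]; exact Nat.mul_dvd_mul_left d1 hd2A)
  have hx2 : d2 • (B • x) = 0 := by
    rw [← mul_smul]
    refine hdvd _ ?_
    nth_rewrite 1 [← hd12]
    rw [mul_comm d1 d2]
    exact Nat.mul_dvd_mul_left d2 hd1B
  have hx10 : A • x ≠ 0 := by
    intro h0
    have h1 : d ∣ A := addOrderOf_dvd_iff_nsmul_eq_zero.2 h0
    have h2 : d1 ∣ A := (Dvd.intro d2 hd12).trans h1
    have h3 : 1 ≡ 0 [MOD d1] := hA1.symm.trans ((Nat.modEq_zero_iff_dvd).2 h2)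
    have h4 := (Nat.modEq_zero_iff_dvd).1 h3
    have := Nat.le_of_dvd one_pos h4
    omega
  have hx20 : B • x ≠ 0 := by
    intro h0
    have h1 : d ∣ B := addOrderOf_dvd_iff_nsmul_eq_zero.2 h0
    have h2 : d2 ∣ B := (Dvd.intro_left d1 hd12).trans h1
    have h3 : 1 ≡ 0 [MOD d2] := hB2.symm.trans ((Nat.modEq_zero_iff_dvd).2 h2)
    have h4 := (Nat.modEq_zero_iff_dvd).1 h3
    have := Nat.le_of_dvd one_pos h4
    omega
  refine ⟨A, B, ?_, hx10, hx20, ?_, ?_⟩
  · rw [← add_smul]
    have h1 : (A + B) • x = 1 • x := by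
      rw [nsmul_eq_nsmul_iff_modEq]
      exact hAB
    rw [h1, one_smul]
  · have h1 : addOrderOf (A • x) ∣ d1 := addOrderOf_dvd_iff_nsmul_eq_zero.2 hx1
    have h2 := Nat.le_of_dvd (by omega) h1
    have h3 : d1 * 1 < d1 * d2 := Nat.mul_lt_mul_of_pos_left h1d2 (by omega)
    rw [hd12] at h3
    omega
  · have h1 : addOrderOf (B • x) ∣ d2 := addOrderOf_dvd_iff_nsmul_eq_zero.2 hx2
    have h2 := Nat.le_of_dvd (by omega) h1
    have h3 : d2 * 1 < d2 * d1 := Nat.mul_lt_mul_of_pos_left h1d1 hd2pos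
    rw [mul_comm d2 d1, hd12] at h3
    omega

/-- every element is a sum of elements of prime power order -/
theorem exists_pp_sum {N : ℕ} [NeZero N] (x : ZMod N) :
    ∃ ζ : Multiset (ZMod N), ζ.sum = x ∧ ∀ y ∈ ζ, y ≠ 0 ∧ IsPrimePow (addOrderOf y) := by
  induction hd : addOrderOf x using Nat.strong_induction_on generalizing x with
  | _ d ih =>
  by_cases hx : x = 0
  · exact ⟨0, by simp [hx], by simp⟩
  by_cases hpp : IsPrimePow (addOrderOf x)
  · exact ⟨{x}, by simp, fun y hy => by rw [Multiset.mem_singleton.1 hy]; exact ⟨hx, hpp⟩⟩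
  obtain ⟨A, B, h1, -, -, h4, h5⟩ := exists_coprime_split hx hpp
  rw [hd] at h4 h5
  obtain ⟨ζ, g1, g2⟩ := ih _ h4 (A • x) rfl
  obtain ⟨ξ, g3, g4⟩ := ih _ h5 (B • x) rfl
  refine ⟨ζ + ξ, by rw [Multiset.sum_add, g1, g3, h1], fun y hy => ?_⟩
  rcases Multiset.mem_add.1 hy with h | h
  · exact g2 y h
  · exact g4 y h

section
variable {k : Type} [Field k] [Fintype k] {N : ℕ} [NeZero N] {χ : MulChar k ℂ} {ψ : AddChar k ℂ}

/-- `x ↦ cls x - cls (p x)` is additive -/
theorem D_add (hχ : orderOf χ = N) (hψ : ψ ≠ 1) (p : ℕ) [Fact p.Prime] [CharP k p]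
    (hp : Nat.Coprime p N) (x y : ZMod N) :
    cls χ ψ (x + y) - cls χ ψ ((p : ZMod N) * (x + y)) =
      (cls χ ψ x - cls χ ψ ((p : ZMod N) * x)) + (cls χ ψ y - cls χ ψ ((p : ZMod N) * y)) := by
  have hpu : IsUnit (p : ZMod N) := (ZMod.isUnit_iff_coprime _ _).2 hp
  have hP0 : ∀ w : ZMod N, w ≠ 0 → -((p : ZMod N) * w) ≠ 0 := fun w hw =>
    neg_ne_zero.2 fun h => hw ((hpu.mul_right_eq_zero).1 h)
  have hcur : ∀ x y z : ZMod N, x ≠ 0 → y ≠ 0 → z ≠ 0 → x + y + z = 0 →
      (cls χ ψ x + cls χ ψ y + cls χ ψ z) + (cls χ ψ (-((p : ZMod N) * x)) +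
        cls χ ψ (-((p : ZMod N) * y)) + cls χ ψ (-((p : ZMod N) * z))) = 0 := by
    intro x y z hx hy hz hxyz
    refine cls_curves hx hy hz (hP0 x hx) (hP0 y hy) (hP0 z hz) hxyz ?_ ?_
    · rw [← neg_add, ← neg_add, ← mul_add, ← mul_add, hxyz, mul_zero, neg_zero]
    · have e1 := pure_pair (χ := χ) (ψ := ψ) hχ hψ p 1 hx
      have e2 := pure_pair (χ := χ) (ψ := ψ) hχ hψ p 1 hy
      have e3 := pure_pair (χ := χ) (ψ := ψ) hχ hψ p 1 hz
      rw [pow_one] at e1 e2 e3
      have e4 := (e1.add e2).add e3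
      convert e4 using 1
      simp only [Multiset.insert_eq_cons, ← Multiset.singleton_add]
      abel
  rcases eq_or_ne x 0 with rfl | hx
  · simp [cls_zero]
  rcases eq_or_ne y 0 with rfl | hy
  · simp [cls_zero]
  rcases eq_or_ne (x + y) 0 with hxy | hxy
  · have hy' : y = -x := by rw [eq_neg_iff_add_eq_zero, add_comm]; exact hxy
    rw [hxy, hy', mul_neg, cls_neg, cls_neg]
    simp [cls_zero]
  · have h3 := hcur x y (-(x + y)) hx hy (neg_ne_zero.2 hxy) (by ring)
    rw [mul_neg, neg_neg, cls_neg, cls_neg, cls_neg] at h3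
    rw [← sub_eq_zero, ← neg_eq_zero]
    rw [← h3]
    abel

theorem D_multiset (hχ : orderOf χ = N) (hψ : ψ ≠ 1) (p : ℕ) [Fact p.Prime] [CharP k p]
    (hp : Nat.Coprime p N) (ζ : Multiset (ZMod N)) :
    cls χ ψ ζ.sum - cls χ ψ ((p : ZMod N) * ζ.sum) =
      (ζ.map fun y => cls χ ψ y - cls χ ψ ((p : ZMod N) * y)).sum := by
  induction ζ using Multiset.induction_on with
  | empty => simp [cls_zero]
  | cons x ζ ih => rw [Multiset.sum_cons, Multiset.map_cons, Multiset.sum_cons,
      D_add hχ hψ p hp, ih]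

/-- elimination at an almost supersingular level which is not supersingular -/
theorem elim_level (hχ : orderOf χ = N) (hψ : ψ ≠ 1) (p n : ℕ) [Fact p.Prime] [CharP k p]
    (hn : 0 < n) (hpn : (p : ZMod N) ^ n = 1)
    (τ : (ZMod N → ℤ) ⧸ (relS χ ψ)) (hτ : τ + τ = 0) (M : ℕ) (hMN : M ∣ N)
    (hMAS : AlmostSS p M) (hMss : ¬ SSMod p M) (a : Multiset (ZMod N))
    (ha : ∀ x ∈ a, addOrderOf x ∣ M ∧ (addOrderOf x).primeFactors = M.primeFactors)
    (hst : ∀ t : ℕ, Nat.Coprime t N → (a.map (stk N p n t)).sum = 0) :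
    ∃ ρ, RepE χ ψ p n τ a ρ ∧ ∀ y ∈ ρ, IsPrimePow (addOrderOf y) := by
  classical
  have hN0 : N ≠ 0 := NeZero.ne N
  have hM0 : M ≠ 0 := fun h => hN0 (Nat.eq_zero_of_zero_dvd (h ▸ hMN))
  have hne : NeZero M := ⟨hM0⟩
  have hcop : Nat.Coprime p N := by
    rw [← ZMod.isUnit_iff_coprime]
    exact IsUnit.of_pow_eq_one hpn hn.ne'
  have hcopM : Nat.Coprime p M := hcop.coprime_dvd_right hMN
  have hpM : (p : ZMod M) ^ n = 1 := by
    have h1 := congrArg (ZMod.castHom hMN (ZMod M)) hpn
    rw [map_pow, map_natCast, map_one] at h1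
    exact h1
  set P : (ZMod M)ˣ := Units.ofPowEqOne (p : ZMod M) n hpM hn.ne' with hP
  have hPval : (P : ZMod M) = (p : ZMod M) := rfl
  have hPn : P ^ n = 1 := by
    ext; rw [Units.val_pow_eq_pow_val, hPval, hpM]; rfl
  have hmul : ∀ y : ZMod M, incl M N ((P : ZMod M) * y) =
      (p : ZMod N) * incl M N y := fun y => by rw [hPval, incl_mul hMN]
  have hcase : ∀ i : ℕ, P ^ i ≠ -1 := by
    intro i hi
    apply hMss
    refine ⟨i, ?_⟩
    rw [← ZMod.natCast_eq_zero_iff]
    have h1 := congrArg (fun u : (ZMod M)ˣ => (u : ZMod M)) hi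
    simp only [Units.val_pow_eq_pow_val, Units.val_neg, Units.val_one] at h1
    push_cast
    rw [← hPval, h1, neg_add_cancel]
  set h : ZMod M := ((M / 2 : ℕ) : ZMod M) with hh
  have hhalf : 2 ∣ M → incl M N h = ((N / 2 : ℕ) : ZMod N) := by
    intro h2
    rw [hh, incl_natCast hMN]
    congr 1
    obtain ⟨c, hc⟩ := hMN
    obtain ⟨r, hr⟩ := h2
    have hpos : 0 < M := NeZero.pos _
    have h1 : N / M = c := by rw [hc, Nat.mul_div_cancel_left c hpos]
    rw [h1]
    have h2 : M / 2 = r := by omega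
    rw [h2, hc, hr, mul_assoc, Nat.mul_div_cancel_left _ two_pos, mul_comm]
  -- the multiset at level M
  obtain ⟨b, hb⟩ : ∃ b : Multiset (ZMod M), b.map (incl M N) = a := by
    clear hst
    induction a using Multiset.induction_on with
    | empty => exact ⟨0, by simp⟩
    | cons x a ih =>
      obtain ⟨b, hb⟩ := ih fun y hy => ha y (Multiset.mem_cons_of_mem hy)
      obtain ⟨y, hy⟩ := incl_surj hMN (y := x) (by
        rw [← nsmul_eq_mul]
        exact addOrderOf_dvd_iff_nsmul_eq_zero.1 (ha x (Multiset.mem_cons_self x a)).1)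
      exact ⟨y ::ₘ b, by rw [Multiset.map_cons, hy, hb]⟩
  have hbprime : ∀ y ∈ b, ∀ l : ℕ, l.Prime → l ∣ M → ¬ l ^ M.factorization l ∣ y.val := by
    intro y hy l hl hlM hd
    have h1 := (ha (incl M N y) (hb ▸ Multiset.mem_map_of_mem _ hy)).2
    have h2 : l ∣ addOrderOf (incl M N y) := by
      have h3 : l ∈ M.primeFactors := Nat.mem_primeFactors.2 ⟨hl, hlM, hM0⟩
      rw [← h1] at h3
      exact Nat.dvd_of_mem_primeFactors h3
    have h4 : (M / l ^ M.factorization l) • incl M N y = 0 := by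
      rw [nsmul_eq_mul, ← incl_mul hMN, ← ZMod.natCast_zmod_val y, ← Nat.cast_mul]
      have h5 : ((M / l ^ M.factorization l * y.val : ℕ) : ZMod M) = 0 := by
        rw [ZMod.natCast_eq_zero_iff]
        obtain ⟨c, hc⟩ := hd
        rw [hc, ← mul_assoc, mul_comm (M / _), Nat.ordProj_mul_ordCompl_eq_self]
        exact dvd_mul_right M c
      rw [h5, incl_zero hMN]
    have h6 := h2.trans (addOrderOf_dvd_iff_nsmul_eq_zero.2 h4)
    exact Nat.not_dvd_ordCompl hl hM0 h6
  have hstb : ∀ t : (ZMod M)ˣ,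
      2 * ∑ i ∈ range n,
        (b.map fun x => (((t * P ^ i : (ZMod M)ˣ) : ZMod M) * x).val).sum =
        M * n * Multiset.card b := by
    intro t
    -- the sum at level M
    obtain ⟨s, hs⟩ := ZMod.unitsMap_surjective hMN t
    have hsval : ((s : ZMod N).val : ZMod M) = (t : ZMod M) := by
      have h1 := congrArg (fun u : (ZMod M)ˣ => (u : ZMod M)) hs
      simp only [ZMod.unitsMap_val] at h1
      rw [← h1]
      exact ZMod.natCast_val _
    have h0 := hst (s : ZMod N).val (ZMod.val_coe_unit_coprime s)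
    rw [← hb, Multiset.map_map] at h0
    have h0' : (b.map fun y => ((N / M : ℕ) : ℤ) * stk M p n (s : ZMod N).val y).sum = 0 := by
      rw [← h0]
      congr 1
      refine Multiset.map_congr rfl fun y _ => ?_
      rw [Function.comp_apply, stk_incl hMN]
    rw [Multiset.sum_map_mul_left] at h0'
    have hpos' : ((N / M : ℕ) : ℤ) ≠ 0 := by
      have : 0 < N / M := Nat.div_pos (Nat.le_of_dvd (Nat.pos_of_ne_zero hN0) hMN) (NeZero.pos M)
      exact_mod_cast this.ne'
    have h1 := (mul_eq_zero.1 h0').resolve_left hpos'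
    have h2 : ((b.map (stk M p n (s : ZMod N).val)).sum : ℤ) =
        2 * ∑ i ∈ range n, ((b.map fun x => (((t * P ^ i : (ZMod M)ˣ) :
          ZMod M) * x).val).sum : ℤ) - (M : ℕ) * n * Multiset.card b := by
      clear h0 h0' h1 hst hb hbprime
      induction b using Multiset.induction_on with
      | empty => simp
      | cons x b ih =>
        rw [Multiset.map_cons, Multiset.sum_cons, ih]
        simp only [Multiset.map_cons, Multiset.sum_cons, Multiset.card_cons]
        unfold stk
        have h3 : ∀ i, (((p ^ i * (s : ZMod N).val : ℕ) : ZMod M) * x).val =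
            (((t * P ^ i : (ZMod M)ˣ) : ZMod M) * x).val := by
          intro i
          congr 1
          rw [Nat.cast_mul, hsval, Units.val_mul, Units.val_pow_eq_pow_val, hPval]
          push_cast
          ring
        simp only [h3]
        push_cast
        rw [Finset.sum_add_distrib]
        ring
    rw [h2] at h1
    have h3 : (2 * ∑ i ∈ range n, ((b.map fun x => (((t * P ^ i : (ZMod M)ˣ) :
          ZMod M) * x).val).sum : ℤ)) = (M : ℕ) * n * Multiset.card b := by linarith
    exact_mod_cast h3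
  obtain ⟨ε, z, hε, hz1, hz2, hz3⟩ := level_almost (fun y => cls χ ψ (incl M N y)) p P hPval n hn
    hPn hcase hMAS h (fun _ => hh)
    (by
      show cls χ ψ (incl M N 0) = 0
      rw [incl_zero hMN, cls_zero])
    (by
      intro x
      show cls χ ψ (incl M N (-x)) = - cls χ ψ (incl M N x)
      rw [incl_neg hMN, cls_neg])
    (by
      intro l hl hlM c hc
      show cls χ ψ (incl M N ((l : ZMod M) * c)) = _
      have h1 := incl_ne_zero hMN hc
      rw [incl_mul hMN] at h1
      rw [incl_mul hMN, cls_dist hl (hlM.trans hMN) _ h1]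
      congr 1
      · rw [Multiset.map_map, Multiset.map_map]
        congr 1
        refine Multiset.map_congr rfl fun i _ => ?_
        simp only [Function.comp_apply]
        rw [incl_add hMN, incl_mul hMN, incl_natCast hMN]
        congr 4
        rw [Nat.div_mul_div_comm hMN hlM, mul_comm N M,
          Nat.mul_div_mul_left _ _ (NeZero.pos M)]
      · by_cases hl2 : l = 2
        · rw [if_pos hl2, if_pos hl2, hhalf (hl2 ▸ hlM)]
        · rw [if_neg hl2, if_neg hl2])
    (by
      intro x y z hx hy hz hxyz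
      have hP0 : ∀ w : ZMod M, w ≠ 0 → -((P : ZMod M) * w) ≠ 0 := fun w hw =>
        neg_ne_zero.2 fun h => hw (by simpa using h)
      have hneg : ∀ w : ZMod M, incl M N (-((P : ZMod M) * w)) =
          -((p : ZMod N) ^ 1 * incl M N w) := fun w => by
        rw [incl_neg hMN, hmul, pow_one]
      refine cls_curves (incl_ne_zero hMN hx) (incl_ne_zero hMN hy) (incl_ne_zero hMN hz)
        (incl_ne_zero hMN (hP0 x hx)) (incl_ne_zero hMN (hP0 y hy)) (incl_ne_zero hMN (hP0 z hz))
        ?_ ?_ ?_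
      · rw [← incl_add hMN, ← incl_add hMN, hxyz, incl_zero hMN]
      · rw [← incl_add hMN, ← incl_add hMN, ← neg_add, ← neg_add, ← mul_add, ← mul_add, hxyz,
          mul_zero, neg_zero, incl_zero hMN]
      · rw [hneg, hneg, hneg]
        have e1 := pure_pair (χ := χ) (ψ := ψ) hχ hψ p 1 (incl_ne_zero hMN hx)
        have e2 := pure_pair (χ := χ) (ψ := ψ) hχ hψ p 1 (incl_ne_zero hMN hy)
        have e3 := pure_pair (χ := χ) (ψ := ψ) hχ hψ p 1 (incl_ne_zero hMN hz)
        have e4 := (e1.add e2).add e3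
        convert e4 using 1
        simp only [Multiset.insert_eq_cons, ← Multiset.singleton_add]
        abel)
    b hbprime hstb
  -- the new multiset
  obtain ⟨ζ, hζ1, hζ2⟩ := exists_pp_sum (incl M N z)
  set H : ZMod N := incl M N h with hH
  set η : Multiset (ZMod N) := if Odd ε then {H} else 0 with hη
  have hHprop : Odd ε → H ≠ 0 ∧ -H = H := by
    intro hodd
    have h2M : 2 ∣ M := by
      by_contra h2
      rw [hε h2] at hodd
      exact absurd hodd (by decide)
    have h2N : 2 ∣ N := h2M.trans hMN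
    refine ⟨?_, ?_⟩
    · rw [hH]
      refine incl_ne_zero hMN ?_
      intro hc
      rw [hh, ZMod.natCast_eq_zero_iff] at hc
      obtain ⟨c, hc'⟩ := h2M
      have hpos := NeZero.pos M
      have h3 : M / 2 = c := by omega
      rw [h3] at hc
      have := Nat.le_of_dvd (by omega) hc
      omega
    · rw [hhalf h2M]
      exact half_neg h2N
  have hHsm : ε • H = η.sum ∧ ε • cls χ ψ H = (η.map (cls χ ψ)).sum ∧
      (Even (Multiset.card η + ε)) := by
    have hd2 : ∀ r : ℕ, (r + r) • H = 0 ∧ (r + r) • cls χ ψ H = 0 ∨ ε = 0 := by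
      intro r
      by_cases h2M : 2 ∣ M
      · left
        have hneg' : -H = H := by rw [hhalf h2M]; exact half_neg (h2M.trans hMN)
        have e1 : H + H = 0 := by
          nth_rewrite 1 [← hneg']; simp
        have e2 : cls χ ψ H + cls χ ψ H = 0 := by
          nth_rewrite 1 [← hneg']; rw [cls_neg]; simp
        rw [← two_mul, mul_comm, mul_smul, mul_smul, two_smul, two_smul, e1, e2, smul_zero,
          smul_zero]
        exact ⟨rfl, rfl⟩
      · right
        exact hε h2M
    rcases Nat.even_or_odd ε with he | ho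
    · have hη0 : η = 0 := by rw [hη, if_neg (by rwa [Nat.not_odd_iff_even])]
      rw [hη0]
      obtain ⟨r, hr⟩ := he
      rcases hd2 r with h3 | h3
      · rw [hr, h3.1, h3.2]
        exact ⟨by simp, by simp, ⟨r, by simp⟩⟩
      · rw [h3]
        simp
    · have hη1 : η = {H} := by rw [hη, if_pos ho]
      rw [hη1]
      obtain ⟨r, hr⟩ := ho
      rcases hd2 r with h3 | h3
      · have h4 : ε = (r + r) + 1 := by omega
        rw [h4, add_smul (r + r) 1 H, add_smul (r + r) 1 (cls χ ψ H), h3.1, h3.2]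
        exact ⟨by simp, by simp, ⟨r + 1, by simp; ring⟩⟩
      · omega
  have hpH : (p : ZMod N) * incl M N z = incl M N ((P : ZMod M) * z) := (hmul z).symm
  have hcla : (a.map (cls χ ψ)).sum =
      (ζ.map fun y => cls χ ψ y - cls χ ψ ((p : ZMod N) * y)).sum + (η.map (cls χ ψ)).sum := by
    rw [← hb, Multiset.map_map, ← D_multiset hχ hψ p hcop, hζ1, ← hHsm.2.1, hpH]
    exact hz1
  have hclρ : ((ζ + ζ.map (fun y => -((p : ZMod N) * y)) + η).map (cls χ ψ)).sum =
      (ζ.map fun y => cls χ ψ y - cls χ ψ ((p : ZMod N) * y)).sum + (η.map (cls χ ψ)).sum := by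
    rw [Multiset.map_add, Multiset.sum_add, Multiset.map_add, Multiset.sum_add, Multiset.map_map]
    congr 1
    rw [← Multiset.sum_map_add]
    congr 1
    refine Multiset.map_congr rfl fun y _ => ?_
    rw [Function.comp_apply, cls_neg, sub_eq_add_neg]
  have hpu : IsUnit (p : ZMod N) := (ZMod.isUnit_iff_coprime _ _).2 hcop
  refine ⟨ζ + ζ.map (fun y => -((p : ZMod N) * y)) + η, ⟨?_, ?_, ?_, ?_⟩, ?_⟩
  · rw [Multiset.mem_add, Multiset.mem_add, not_or, not_or]
    refine ⟨⟨fun h => (hζ2 0 h).1 rfl, ?_⟩, ?_⟩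
    · intro h
      obtain ⟨y, hy, hy0⟩ := Multiset.mem_map.1 h
      exact (hζ2 y hy).1 ((hpu.mul_right_eq_zero).1 (neg_eq_zero.1 hy0))
    · rw [hη]
      split_ifs with ho
      · rw [Multiset.mem_singleton]
        exact (hHprop ho).1.symm
      · simp
  · rw [Multiset.sum_add, Multiset.sum_add, ← hHsm.1]
    have h1 : (ζ.map (fun y => -((p : ZMod N) * y))).sum = -((p : ZMod N) * ζ.sum) := by
      have h2 : (fun y : ZMod N => -((p : ZMod N) * y)) = fun y => (-(p : ZMod N)) * y := by
        funext y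
        ring
      rw [h2, Multiset.sum_map_mul_left, Multiset.map_id']
      ring
    rw [h1, hζ1, ← hb, incl_multiset_sum hMN, hz2, incl_add hMN, hpH, ← incl_neg hMN,
      ← incl_add hMN]
    congr 1
    · congr 1
      ring
    · rw [hH, nsmul_eq_mul, nsmul_eq_mul, incl_mul hMN]
  · rw [hclρ, ← hcla]
    have hev : Even (Multiset.card (ζ + ζ.map (fun y => -((p : ZMod N) * y)) + η) +
        Multiset.card a) := by
      rw [Multiset.card_add, Multiset.card_add, Multiset.card_map, ← hb, Multiset.card_map]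
      obtain ⟨r1, hr1⟩ := hz3
      obtain ⟨r2, hr2⟩ := hHsm.2.2
      exact ⟨Multiset.card ζ + r1 + r2 - ε, by omega⟩
    obtain ⟨r, hr⟩ := hev
    rw [hr, ← two_mul, mul_comm, mul_smul, two_smul, hτ, smul_zero, add_zero]
  · intro t ht
    rw [hst t ht, Multiset.map_add, Multiset.sum_add, Multiset.map_add, Multiset.sum_add,
      Multiset.map_map]
    have h1 : (ζ.map (stk N p n t ∘ fun y => -((p : ZMod N) * y))).sum =
        -(ζ.map (stk N p n t)).sum := by
      rw [← Multiset.sum_map_neg', Multiset.map_map]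
      congr 1
      refine Multiset.map_congr rfl fun y hy => ?_
      rw [Function.comp_apply, Function.comp_apply, stk_neg2 hcop ht
        (fun h => (hζ2 y hy).1 ((hpu.mul_right_eq_zero).1 h)), stk_frob hpn]
    have h2 : (η.map (stk N p n t)).sum = 0 := by
      rw [hη]
      split_ifs with ho
      · rw [Multiset.map_singleton, Multiset.sum_singleton]
        have h3 := stk_neg2 (p := p) (n := n) hcop ht (hHprop ho).1
        rw [(hHprop ho).2] at h3
        linarith
      · simp
    rw [h1, h2]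
    ring
  · intro y hy
    rcases Multiset.mem_add.1 hy with hy | hy
    · rcases Multiset.mem_add.1 hy with hy | hy
      · exact (hζ2 y hy).2
      · obtain ⟨w, hw, rfl⟩ := Multiset.mem_map.1 hy
        obtain ⟨hw0, q, j, hq, hj, hqj⟩ := hζ2 w hw
        refine primePow_of_smul (neg_ne_zero.2 fun h => hw0 ((hpu.mul_right_eq_zero).1 h))
          (Nat.prime_iff.2 hq) (j := j) ?_
        rw [hqj, smul_neg, ← mul_smul_comm, addOrderOf_nsmul_eq_zero, mul_zero, neg_zero]
    · rw [hη] at hy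
      split_ifs at hy with ho
      · rw [Multiset.mem_singleton.1 hy]
        refine primePow_of_smul (hHprop ho).1 Nat.prime_two (j := 1) ?_
        rw [pow_one, two_smul]
        nth_rewrite 1 [← (hHprop ho).2]
        simp
      · simp at hy

end

end Fermat950
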