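import Mathlib
import Pool.Agent.Lib.MP_950c68_ag.F2.Elim

/-!
# The generation theorem for almost supersingular degrees
-/

set_option autoImplicit false

open Finset

namespace Fermat950

theorem AlmostSS.mono {p d d' : ℕ} (h : AlmostSS p d) (hd : d' ∣ d) :
    AlmostSS p d' := fun l hl hld =>
  (h l hl (hld.trans hd)).mono (Nat.ordCompl_dvd_ordCompl_of_dvd hd l)

theorem smul_eq_neg_of_ssMod {N p : ℕ} {x : ZMod N} (h : SSMod p (addOrderOf x)) :
    ∃ i : ℕ, (p : ZMod N) ^ i * x = -x := by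
  obtain ⟨i, hi⟩ := h
  refine ⟨i, ?_⟩
  have h1 : (p ^ i + 1) • x = 0 := addOrderOf_dvd_iff_nsmul_eq_zero.1 hi
  rw [nsmul_eq_mul] at h1
  push_cast at h1
  rw [eq_neg_iff_add_eq_zero, ← h1]
  ring

theorem exists_type_lcm {N : ℕ} [NeZero N] {p : ℕ} (T : Finset ℕ) (b : Multiset (ZMod N))
    (h : ∀ x ∈ b, AlmostSS p (addOrderOf x) ∧ (addOrderOf x).primeFactors = T) :
    b = 0 ∨ ∃ M : ℕ, M ∣ N ∧ AlmostSS p M ∧ M.primeFactors = T ∧ ∀ x ∈ b, addOrderOf x ∣ M := by
  have hN0 : N ≠ 0 := NeZero.ne N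
  have hord : ∀ x : ZMod N, addOrderOf x ∣ N := fun x => by
    have := addOrderOf_dvd_card (x := x)
    rwa [ZMod.card] at this
  induction b using Multiset.induction_on with
  | empty => exact Or.inl rfl
  | cons x b ih =>
    right
    obtain ⟨h1, h2⟩ := h x (Multiset.mem_cons_self x b)
    rcases ih fun y hy => h y (Multiset.mem_cons_of_mem hy) with rfl | ⟨M, g1, g2, g3, g4⟩
    · exact ⟨addOrderOf x, hord x, h1, h2, fun y hy => by
        rw [Multiset.mem_singleton.1 hy]⟩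
    · have hM0 : M ≠ 0 := fun h => hN0 (Nat.eq_zero_of_zero_dvd (h ▸ g1))
      obtain ⟨e1, e2⟩ := h1.lcm g2 (addOrderOf_pos x).ne' hM0 (h2.trans g3.symm)
      refine ⟨Nat.lcm (addOrderOf x) M, Nat.lcm_dvd (hord x) g1, e1, e2.trans h2, ?_⟩
      intro y hy
      rcases Multiset.mem_cons.1 hy with rfl | hy
      · exact Nat.dvd_lcm_left _ _
      · exact (g4 y hy).trans (Nat.dvd_lcm_right _ _)

section
variable {k : Type} [Field k] [Fintype k] {N : ℕ} [NeZero N] {χ : MulChar k ℂ} {ψ : AddChar k ℂ}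

/-- elimination of the elements of one type -/
theorem elim_type (hχ : orderOf χ = N) (hψ : ψ ≠ 1) (p n : ℕ) [Fact p.Prime] [CharP k p]
    [Algebra (ZMod p) k] (hn : 0 < n) (hq : Fintype.card k = p ^ n) (hmq : N ∣ p ^ n - 1)
    (hpn : (p : ZMod N) ^ n = 1)
    (τ : (ZMod N → ℤ) ⧸ (relS χ ψ)) (hτ : τ + τ = 0)
    (htri : ∀ x y z : ZMod N, x ≠ 0 → y ≠ 0 → z ≠ 0 → x + y + z = 0 → Pure χ ψ {x, y, z} →
      cls χ ψ x + cls χ ψ y + cls χ ψ z = τ)
    (a : Multiset (ZMod N)) (h0 : 0 ∉ a) (ha : ∀ x ∈ a, AlmostSS p (addOrderOf x))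
    (hst : ∀ t : ℕ, Nat.Coprime t N → (a.map (stk N p n t)).sum = 0) (T : Finset ℕ) :
    ∃ ρ, RepE χ ψ p n τ (a.filter fun x => (addOrderOf x).primeFactors = T) ρ ∧
      ∀ y ∈ ρ, IsPrimePow (addOrderOf y) := by
  classical
  have hcop : Nat.Coprime p N := by
    rw [← ZMod.isUnit_iff_coprime]
    exact IsUnit.of_pow_eq_one hpn hn.ne'
  set aT := a.filter fun x => (addOrderOf x).primeFactors = T with haT
  have hmem : ∀ x ∈ aT, x ∈ a ∧ (addOrderOf x).primeFactors = T := fun x hx =>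
    Multiset.mem_filter.1 hx
  have hprop : ∀ x ∈ aT, AlmostSS p (addOrderOf x) ∧ (addOrderOf x).primeFactors = T :=
    fun x hx => ⟨ha x (hmem x hx).1, (hmem x hx).2⟩
  rcases exists_type_lcm T aT hprop with h | ⟨M, g1, g2, g3, g4⟩
  · rw [h]
    exact ⟨0, ⟨by simp, by simp, by simp, by simp⟩, by simp⟩
  · by_cases hss : SSMod p M
    · refine repE_multiset (fun y => IsPrimePow (addOrderOf y)) aT fun x hx => ?_
      have hx0 : x ≠ 0 := fun h => h0 (h ▸ (hmem x hx).1)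
      obtain ⟨i, hi⟩ := smul_eq_neg_of_ssMod (hss.mono (g4 x hx))
      obtain ⟨ρ, hρ⟩ := rep_ss hχ hψ p n hn hq hmq τ hτ htri i x hx0 hi
      exact ⟨ρ, hρ.repE, hρ.pp⟩
    · refine elim_level hχ hψ p n hn hpn τ hτ M g1 g2 hss aT
        (fun x hx => ⟨g4 x hx, (hmem x hx).2.trans g3.symm⟩) ?_
      refine isolate hcop hpn g1 g2 aT (a.filter fun x => ¬ (addOrderOf x).primeFactors = T) g4 ?_ ?_
      · intro x hx
        obtain ⟨hx1, hx2⟩ := Multiset.mem_filter.1 hx
        exact ⟨fun h => h0 (h ▸ hx1), ha x hx1, g3 ▸ hx2⟩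
      · intro t ht
        rw [haT, Multiset.filter_add_not]
        exact hst t ht

/-- elimination of all types -/
theorem elim_all (hχ : orderOf χ = N) (hψ : ψ ≠ 1) (p n : ℕ) [Fact p.Prime] [CharP k p]
    [Algebra (ZMod p) k] (hn : 0 < n) (hq : Fintype.card k = p ^ n) (hmq : N ∣ p ^ n - 1)
    (hpn : (p : ZMod N) ^ n = 1)
    (τ : (ZMod N → ℤ) ⧸ (relS χ ψ)) (hτ : τ + τ = 0)
    (htri : ∀ x y z : ZMod N, x ≠ 0 → y ≠ 0 → z ≠ 0 → x + y + z = 0 → Pure χ ψ {x, y, z} →
      cls χ ψ x + cls χ ψ y + cls χ ψ z = τ)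
    (a : Multiset (ZMod N)) (h0 : 0 ∉ a) (ha : ∀ x ∈ a, AlmostSS p (addOrderOf x))
    (hst : ∀ t : ℕ, Nat.Coprime t N → (a.map (stk N p n t)).sum = 0) :
    ∃ ρ, RepE χ ψ p n τ a ρ ∧ ∀ y ∈ ρ, IsPrimePow (addOrderOf y) := by
  classical
  have key : ∀ S : Finset (Finset ℕ), ∃ ρ,
      RepE χ ψ p n τ (a.filter fun x => (addOrderOf x).primeFactors ∈ S) ρ ∧
        ∀ y ∈ ρ, IsPrimePow (addOrderOf y) := by
    intro S
    induction S using Finset.induction_on with
    | empty =>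
      refine ⟨0, ⟨?_, ?_, ?_, ?_⟩, ?_⟩ <;> simp
    | insert T S hT ih =>
      obtain ⟨ρ, h1, h2⟩ := ih
      obtain ⟨ρ', h3, h4⟩ := elim_type hχ hψ p n hn hq hmq hpn τ hτ htri a h0 ha hst T
      have h5 : (a.filter fun x => (addOrderOf x).primeFactors ∈ insert T S) =
          (a.filter fun x => (addOrderOf x).primeFactors = T) +
            a.filter fun x => (addOrderOf x).primeFactors ∈ S := by
        rw [Multiset.filter_add_filter]
        have h6 : (a.filter fun x => (addOrderOf x).primeFactors = T ∧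
            (addOrderOf x).primeFactors ∈ S) = 0 := by
          rw [Multiset.filter_eq_nil]
          rintro x _ ⟨h7, h8⟩
          exact hT (h7 ▸ h8)
        rw [h6, add_zero]
        refine Multiset.filter_congr fun x _ => ?_
        rw [Finset.mem_insert]
      refine ⟨ρ' + ρ, ?_, ?_⟩
      · rw [h5]
        exact h3.add h1
      · intro y hy
        rcases Multiset.mem_add.1 hy with h | h
        · exact h4 y h
        · exact h2 y h
  obtain ⟨ρ, h1, h2⟩ := key (a.map fun x => (addOrderOf x).primeFactors).toFinset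
  refine ⟨ρ, ?_, h2⟩
  have h3 : (a.filter fun x => (addOrderOf x).primeFactors ∈
      (a.map fun x => (addOrderOf x).primeFactors).toFinset) = a := by
    rw [Multiset.filter_eq_self]
    intro x hx
    rw [Multiset.mem_toFinset]
    exact Multiset.mem_map_of_mem _ hx
  rwa [h3] at h1

end

theorem almost_main (N : ℕ) (k : Type) [Field k] [Fintype k] (χ : MulChar k ℂ)
    (hχ : orderOf χ = N) (ψ : AddChar k ℂ) (hψ : ψ ≠ 1) (a : Multiset (ZMod N)) (ha : a ≠ 0)
    (h0 : 0 ∉ a) (hs : a.sum = 0) (hev : Even (Multiset.card a))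
    (hgood : ∀ x ∈ a, Good (ringChar k) x) (hT : TateChar χ ψ a) : Alg χ ψ a := by
  classical
  have hNpos : 0 < N := by
    rw [← hχ]
    exact orderOf_pos χ
  have : NeZero N := ⟨hNpos.ne'⟩
  have hT' : Pure χ ψ a := (tateChar_iff_pure ha hev).1 hT
  -- the characteristic
  set p := ringChar k with hpdef
  have hpchar : CharP k p := ringChar.charP k
  have hpp : p.Prime := (CharP.char_is_prime_or_zero k p).resolve_right
    (CharP.char_ne_zero_of_finite k p)
  have hpf : Fact p.Prime := ⟨hpp⟩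
  let _ : Algebra (ZMod p) k := ZMod.algebra k p
  obtain ⟨n, hn0, hq⟩ : ∃ n : ℕ, 0 < n ∧ Fintype.card k = p ^ n := by
    obtain ⟨n, _, hn⟩ := FiniteField.card k p
    exact ⟨n, n.pos, hn⟩
  have hmq : N ∣ p ^ n - 1 := by
    rw [← hχ]
    apply orderOf_dvd_of_pow_eq_one
    ext u
    have h1 : (u : kˣ) ^ (p ^ n - 1) = 1 := by
      have := FiniteField.pow_card_sub_one_eq_one (u : k) u.ne_zero
      rw [hq] at this
      ext; push_cast; exact this
    rw [MulChar.pow_apply_coe, MulChar.one_apply_coe, ← map_pow, ← Units.val_pow_eq_pow_val, h1]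
    simp
  have hpn1 : 1 ≤ p ^ n := Nat.one_le_iff_ne_zero.2 (pow_pos hpp.pos n).ne'
  have hpn : (p : ZMod N) ^ n = 1 := by
    have h2 : ((p ^ n - 1 : ℕ) : ZMod N) = 0 := by
      rw [ZMod.natCast_eq_zero_iff]; exact hmq
    rw [Nat.cast_sub hpn1] at h2
    push_cast at h2
    exact sub_eq_zero.1 h2
  have hcop : Nat.Coprime p N := by
    rw [← ZMod.isUnit_iff_coprime]
    exact IsUnit.of_pow_eq_one hpn hn0.ne'
  -- the class of the pure triples
  obtain ⟨τ, hτ, htri⟩ : ∃ τ : (ZMod N → ℤ) ⧸ (relS χ ψ), τ + τ = 0 ∧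
      ∀ x y z : ZMod N, x ≠ 0 → y ≠ 0 → z ≠ 0 → x + y + z = 0 → Pure χ ψ {x, y, z} →
        cls χ ψ x + cls χ ψ y + cls χ ψ z = τ := by
    by_cases hex : ∃ x y z : ZMod N, x ≠ 0 ∧ y ≠ 0 ∧ z ≠ 0 ∧ x + y + z = 0 ∧ Pure χ ψ {x, y, z}
    · obtain ⟨x, y, z, hx, hy, hz, hxyz, hP⟩ := hex
      have e1 := cls_curves hx hy hz hx hy hz hxyz hxyz (hP.add hP)
      refine ⟨cls χ ψ x + cls χ ψ y + cls χ ψ z, e1, ?_⟩
      intro x' y' z' hx' hy' hz' hxyz' hP'
      have e2 := cls_curves hx' hy' hz' hx hy hz hxyz' hxyz (hP'.add hP)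
      rw [← e1] at e2
      exact add_right_cancel e2
    · push Not at hex
      exact ⟨0, by simp, fun x y z hx hy hz hxyz hP => absurd hP (hex x y z hx hy hz hxyz)⟩
  -- elimination of the doubles
  obtain ⟨a1, hr1, hAS1⟩ : ∃ a1, RepE χ ψ p n τ a a1 ∧ ∀ y ∈ a1, AlmostSS p (addOrderOf y) := by
    refine repE_multiset (fun y => AlmostSS p (addOrderOf y)) a fun x hxa => ?_
    have hx : x ≠ 0 := fun h => h0 (h ▸ hxa)
    rcases hgood x hxa with h | ⟨d, hd1, hd2, hd3⟩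
    · exact ⟨{x}, RepE.refl p n τ hτ (by simpa using hx.symm), fun y hy => by
        rw [Multiset.mem_singleton.1 hy]; exact h⟩
    · obtain ⟨ρ, hρ1, hρ2⟩ := rep_double p n hcop τ hτ hx hd1 hd3
      refine ⟨ρ, hρ1, fun y hy => ?_⟩
      rcases hρ2 y hy with h | h
      · exact hd2.mono h
      · have h2 := almostSS_prime_pow p Nat.prime_two 1
        rw [pow_one] at h2
        exact h2.mono h
  have hst1 : ∀ t : ℕ, Nat.Coprime t N → (a1.map (stk N p n t)).sum = 0 := fun t ht => by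
    rw [hr1.st t ht]
    exact stk_of_pure hχ hψ p n hn0 hq hmq a hT' t ht
  -- elimination of the composite orders
  obtain ⟨b, hr2, hbp⟩ := elim_all hχ hψ p n hn0 hq hmq hpn τ hτ htri a1 hr1.zero hAS1 hst1
  have hr := hr1.trans hτ hr2
  have hbst : ∀ t : ℕ, Nat.Coprime t N → (b.map (stk N p n t)).sum = 0 := fun t ht => by
    rw [hr2.st t ht]
    exact hst1 t ht
  have hcore := core_class hχ hψ p n hn0 hpn τ hτ htri b hr.zero (hr.sum.trans hs) hbp hbst
  rw [hr.cl, add_smul, add_comm (Multiset.card b • τ), ← add_assoc] at hcore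
  have h1 : (a.map (cls χ ψ)).sum + Multiset.card a • τ = 0 := by
    have h2 : (a.map (cls χ ψ)).sum + Multiset.card a • τ + Multiset.card b • τ =
        0 + Multiset.card b • τ := by rw [hcore, zero_add]
    exact add_right_cancel h2
  have h2 : Multiset.card a • τ = 0 := by
    obtain ⟨r, hr⟩ := hev
    rw [hr, ← two_mul, mul_comm, mul_smul, two_smul, hτ, smul_zero]
  rw [h2, add_zero] at h1
  exact alg_of_cls hχ hψ ha h0 h1

end Fermat950
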